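import Mathlib

/-! # H72R, part A: quaternionic lifting tools -/

set_option autoImplicit false

open scoped Quaternion

noncomputable section

namespace H72R

/-- A continuous real function with separated values on a preconnected space is constant. -/
theorem const_of_sep {X : Type*} [TopologicalSpace X] [PreconnectedSpace X] (f : X → ℝ)
    (hf : Continuous f) (h : ∀ x y, |f x - f y| < 1 → f x = f y) (x y : X) : f x = f y := by
  have hcl : IsClopen {z | f z = f y} := by
    constructor
    · exact isClosed_eq hf continuous_const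
    · have : {z | f z = f y} = {z | |f z - f y| < 1} := by
        ext z
        simp only [Set.mem_ofPred_eq]
        constructor
        · intro hz
          rw [hz]
          simp
        · intro hz
          exact h z y hz
      rw [this]
      exact isOpen_lt ((hf.sub continuous_const).abs) continuous_const
  have := hcl.eq_univ ⟨y, rfl⟩
  have hx : x ∈ {z | f z = f y} := by
    rw [this]
    trivial
  exact hx

theorem eq_of_cos_one {a : ℝ} (h : Real.cos a = 1) (h1 : |a| < 1) : a = 0 := by
  obtain ⟨n, hn⟩ := (Real.cos_eq_one_iff a).1 h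
  have hpi := Real.pi_gt_three
  by_contra hne
  have hn0 : n ≠ 0 := by
    rintro rfl
    apply hne
    rw [← hn]
    simp
  have h2 : (1 : ℝ) ≤ |(n : ℝ)| := by
    have := Int.one_le_abs hn0
    exact_mod_cast this
  have h3 : |a| = |(n : ℝ)| * (2 * Real.pi) := by
    rw [← hn, abs_mul, abs_of_pos (by positivity : (0 : ℝ) < 2 * Real.pi)]
  nlinarith

/-- If `cos f` and `sin f` are constant then the continuous function `f` is constant. -/
theorem const_of_cos_sin {X : Type*} [TopologicalSpace X] [PreconnectedSpace X] (f : X → ℝ)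
    (hf : Continuous f) (hc : ∀ x y, Real.cos (f x) = Real.cos (f y))
    (hs : ∀ x y, Real.sin (f x) = Real.sin (f y)) (x y : X) : f x = f y := by
  refine const_of_sep f hf (fun x y hxy => ?_) x y
  have : Real.cos (f x - f y) = 1 := by
    rw [Real.cos_sub, hc x y, hs x y]
    have := Real.cos_sq_add_sin_sq (f y)
    nlinarith
  have := eq_of_cos_one this hxy
  linarith

/-- If `cos f = -1` or `cos f = 1` everywhere then the continuous function `f` is constant. -/
theorem const_of_cos {X : Type*} [TopologicalSpace X] [PreconnectedSpace X] (f : X → ℝ)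
    (hf : Continuous f) (e : ℝ) (he : e ^ 2 = 1) (hc : ∀ x, Real.cos (f x) = e) (x y : X) :
    f x = f y := by
  refine const_of_cos_sin f hf (fun x y => by rw [hc, hc]) (fun x y => ?_) x y
  have h1 : ∀ x, Real.sin (f x) = 0 := by
    intro x
    have := Real.cos_sq_add_sin_sq (f x)
    rw [hc x, he] at this
    have : Real.sin (f x) ^ 2 = 0 := by linarith
    exact pow_eq_zero_iff (two_ne_zero) |>.1 this
  rw [h1, h1]

/-- Lifting of circle valued functions. -/
theorem circle_lift {X : Type*} [TopologicalSpace X] [SimplyConnectedSpace X]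
    [LocallyPathConnectedSpace X] (a b : X → ℝ) (ha : Continuous a) (hb : Continuous b)
    (h : ∀ x, a x ^ 2 + b x ^ 2 = 1) :
    ∃ α : X → ℝ, Continuous α ∧ ∀ x, a x = Real.cos (α x) ∧ b x = Real.sin (α x) := by
  have hn : ∀ x, (⟨a x, b x⟩ : ℂ) ∈ Submonoid.unitSphere ℂ := by
    intro x
    have h2 : ‖(⟨a x, b x⟩ : ℂ)‖ ^ 2 = 1 := by
      rw [Complex.sq_norm, Complex.normSq_mk]
      nlinarith [h x]
    have h0 := norm_nonneg (⟨a x, b x⟩ : ℂ)
    exact mem_sphere_zero_iff_norm.2 (by nlinarith)
  have hcont : Continuous (fun x => (⟨a x, b x⟩ : ℂ)) := by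
    have : (fun x => (⟨a x, b x⟩ : ℂ)) = fun x => (a x : ℂ) + (b x : ℂ) * Complex.I := by
      funext x
      apply Complex.ext <;> simp
    rw [this]
    fun_prop
  let e : C(X, Circle) := ⟨fun x => ⟨(⟨a x, b x⟩ : ℂ), hn x⟩, by
    exact Continuous.subtype_mk hcont _⟩
  obtain ⟨x0⟩ : Nonempty X := inferInstance
  obtain ⟨t, ht⟩ : ∃ t : ℝ, Circle.exp t = e x0 := by
    refine ⟨Complex.arg (e x0 : ℂ), ?_⟩
    exact Circle.exp_arg _
  obtain ⟨F, ⟨_, hF⟩, _⟩ := Circle.isCoveringMap_exp.existsUnique_continuousMap_lifts e x0 t ht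
  refine ⟨F, F.continuous, fun x => ?_⟩
  have h1 : Circle.exp (F x) = e x := congrFun hF x
  have h2 : Complex.exp ((F x : ℂ) * Complex.I) = (⟨a x, b x⟩ : ℂ) := by
    have h3 := congrArg (fun z : Circle => (z : ℂ)) h1
    simp only [Circle.coe_exp] at h3
    rw [h3]
    rfl
  have hre := congrArg Complex.re h2
  have him := congrArg Complex.im h2
  rw [Complex.exp_ofReal_mul_I_re] at hre
  rw [Complex.exp_ofReal_mul_I_im] at him
  exact ⟨hre.symm, him.symm⟩

end H72R
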