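import Mathlib
import Pool.Agent.Lib.H72R.A

/-! # H72R, part B: telescoping products of small rotations -/

set_option autoImplicit false

open scoped Quaternion

noncomputable section

namespace H72R

/-- The imaginary unit `i`. -/
def qi : ℍ[ℝ] := ⟨0, 1, 0, 0⟩

/-- The imaginary unit `j`. -/
def qj : ℍ[ℝ] := ⟨0, 0, 1, 0⟩

@[simp] theorem qi_re : qi.re = 0 := rfl
@[simp] theorem qi_i : qi.imI = 1 := rfl
@[simp] theorem qi_j : qi.imJ = 0 := rfl
@[simp] theorem qi_k : qi.imK = 0 := rfl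
@[simp] theorem qj_re : qj.re = 0 := rfl
@[simp] theorem qj_i : qj.imI = 0 := rfl
@[simp] theorem qj_j : qj.imJ = 1 := rfl
@[simp] theorem qj_k : qj.imK = 0 := rfl

theorem qi_sq : qi * qi = -1 := by
  ext <;> simp

theorem qj_sq : qj * qj = -1 := by
  ext <;> simp

theorem qji : qj * qi = -(qi * qj) := by
  ext <;> simp

theorem star_qi : star qi = -qi := by
  ext <;> simp

theorem star_qj : star qj = -qj := by
  ext <;> simp

/-- The rotation which takes `a` to `b` (not normalised: `1 - b a`), normalised. -/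
def rho (a b : ℍ[ℝ]) : ℍ[ℝ] := (‖1 - b * a‖⁻¹ : ℝ) • (1 - b * a)

theorem one_sub_ne {a b : ℍ[ℝ]} (ha : a * a = -1) (hab : ‖a - b‖ < 2) : 1 - b * a ≠ 0 := by
  intro h
  have h1 : b * a = 1 := by
    rw [sub_eq_zero] at h
    exact h.symm
  have h2 : -b = a := by
    calc -b = b * (a * a) := by rw [ha]; simp
      _ = (b * a) * a := by rw [mul_assoc]
      _ = a := by rw [h1, one_mul]
  have h3 : ‖a‖ = 1 := by
    have h4 : ‖a * a‖ = 1 := by rw [ha]; simp
    rw [norm_mul] at h4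
    nlinarith [norm_nonneg a]
  have h5 : a - b = (2 : ℝ) • a := by
    rw [two_smul, sub_eq_add_neg, h2]
  rw [h5, norm_smul, h3] at hab
  norm_num at hab

theorem rho_norm {a b : ℍ[ℝ]} (ha : a * a = -1) (hab : ‖a - b‖ < 2) : ‖rho a b‖ = 1 := by
  have h := one_sub_ne ha hab
  unfold rho
  rw [norm_smul, norm_inv, norm_norm]
  exact inv_mul_cancel₀ (norm_ne_zero_iff.2 h)

theorem rho_mul {a b : ℍ[ℝ]} (ha : a * a = -1) (hb : b * b = -1) : rho a b * a = b * rho a b := by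
  unfold rho
  rw [smul_mul_assoc, mul_smul_comm]
  congr 1
  rw [sub_mul, mul_sub, mul_assoc, ha, ← mul_assoc b b a, hb]
  simp [add_comm]

theorem rho_self {a : ℍ[ℝ]} (ha : a * a = -1) : rho a a = 1 := by
  unfold rho
  rw [ha]
  have : (1 : ℍ[ℝ]) - -1 = (2 : ℝ) • 1 := by
    rw [two_smul]
    abel
  rw [this, norm_smul]
  simp

/-- Telescoping product. -/
def tel (g : ℕ → ℍ[ℝ]) : ℕ → ℍ[ℝ]
  | 0 => 1
  | (n + 1) => rho (g n) (g (n + 1)) * tel g n

theorem tel_norm (g : ℕ → ℍ[ℝ]) (hg : ∀ k, g k * g k = -1) (hd : ∀ k, ‖g k - g (k + 1)‖ < 2)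
    (n : ℕ) : ‖tel g n‖ = 1 := by
  induction n with
  | zero => simp [tel]
  | succ n ih =>
    rw [tel, norm_mul, ih, rho_norm (hg n) (hd n), one_mul]

theorem tel_mul (g : ℕ → ℍ[ℝ]) (hg : ∀ k, g k * g k = -1) (n : ℕ) :
    tel g n * g 0 = g n * tel g n := by
  induction n with
  | zero => simp [tel]
  | succ n ih =>
    rw [tel, mul_assoc, ih, ← mul_assoc, rho_mul (hg n) (hg (n + 1)), mul_assoc]

theorem tel_const (g : ℕ → ℍ[ℝ]) (hg : ∀ k, g k * g k = -1) (hc : ∀ k, g k = g 0) (n : ℕ) :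
    tel g n = 1 := by
  induction n with
  | zero => simp [tel]
  | succ n ih =>
    rw [tel, ih, hc n, hc (n + 1), rho_self (hg 0), one_mul]

theorem tel_continuous {Y : Type*} [TopologicalSpace Y] (g : Y → ℕ → ℍ[ℝ])
    (hg : ∀ y k, g y k * g y k = -1) (hd : ∀ y k, ‖g y k - g y (k + 1)‖ < 2)
    (hc : ∀ k, Continuous fun y => g y k) (n : ℕ) : Continuous fun y => tel (g y) n := by
  induction n with
  | zero => simpa [tel] using continuous_const
  | succ n ih =>
    have h1 : Continuous fun y => (1 : ℍ[ℝ]) - g y (n + 1) * g y n :=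
      continuous_const.sub ((hc (n + 1)).mul (hc n))
    have h2 : Continuous fun y => ‖(1 : ℍ[ℝ]) - g y (n + 1) * g y n‖⁻¹ :=
      h1.norm.inv₀ (fun y => norm_ne_zero_iff.2 (one_sub_ne (hg y n) (hd y n)))
    exact (h2.smul h1).mul ih

/-- Every imaginary unit is conjugate to `i`. -/
theorem exists_conj (p : ℍ[ℝ]) (hp : p * p = -1) : ∃ u : ℍ[ℝ], ‖u‖ = 1 ∧ u * qi = p * u := by
  by_cases h : ‖qi - p‖ < 2
  · exact ⟨rho qi p, rho_norm qi_sq h, rho_mul qi_sq hp⟩
  · have hn : ‖qi‖ = 1 := by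
      have h4 : ‖qi * qi‖ = 1 := by rw [qi_sq]; simp
      rw [norm_mul] at h4
      nlinarith [norm_nonneg qi]
    have hpn : ‖p‖ = 1 := by
      have h4 : ‖p * p‖ = 1 := by rw [hp]; simp
      rw [norm_mul] at h4
      nlinarith [norm_nonneg p]
    have h1 : p = -qi := by
      have h2 : ‖qi - p‖ * ‖qi - p‖ + ‖qi + p‖ * ‖qi + p‖ = 2 * (‖qi‖ * ‖qi‖ + ‖p‖ * ‖p‖) := by
        have := parallelogram_law_with_norm ℝ qi p
        linarith
      rw [hn, hpn] at h2
      have h3 : ‖qi + p‖ = 0 := by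
        have := norm_nonneg (qi + p)
        nlinarith
      have := norm_eq_zero.1 h3
      exact (neg_eq_of_add_eq_zero_right this).symm
    refine ⟨qj, ?_, ?_⟩
    · have h4 : ‖qj * qj‖ = 1 := by rw [qj_sq]; simp
      rw [norm_mul] at h4
      nlinarith [norm_nonneg qj]
    · rw [h1, qji, neg_mul]

/-- What commutes with `i` is a complex number. -/
theorem comm_qi {e : ℍ[ℝ]} (h : qi * e = e * qi) : e.imJ = 0 ∧ e.imK = 0 := by
  have h1 := congrArg (fun z : ℍ[ℝ] => z.imJ) h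
  have h2 := congrArg (fun z : ℍ[ℝ] => z.imK) h
  simp at h1 h2
  constructor <;> linarith

/-- `cos t + sin t i`. -/
def ce (t : ℝ) : ℍ[ℝ] := ⟨Real.cos t, Real.sin t, 0, 0⟩

@[simp] theorem ce_re (t : ℝ) : (ce t).re = Real.cos t := rfl
@[simp] theorem ce_i (t : ℝ) : (ce t).imI = Real.sin t := rfl
@[simp] theorem ce_j (t : ℝ) : (ce t).imJ = 0 := rfl
@[simp] theorem ce_k (t : ℝ) : (ce t).imK = 0 := rfl

theorem ce_mul (s t : ℝ) : ce s * ce t = ce (s + t) := by
  ext <;> simp [Real.cos_add, Real.sin_add]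
  ring

theorem ce_inj {s t : ℝ} (h : ce s = ce t) : Real.cos (s - t) = 1 := by
  have h1 := congrArg (fun z : ℍ[ℝ] => z.re) h
  have h2 := congrArg (fun z : ℍ[ℝ] => z.imI) h
  simp at h1 h2
  rw [Real.cos_sub, h1, h2]
  have := Real.cos_sq_add_sin_sq t
  nlinarith

theorem ce_neg_inj {s t : ℝ} (h : ce s = -ce t) : Real.cos (s - t) = -1 := by
  have h1 := congrArg (fun z : ℍ[ℝ] => z.re) h
  have h2 := congrArg (fun z : ℍ[ℝ] => z.imI) h
  simp at h1 h2
  rw [Real.cos_sub, h1, h2]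
  have := Real.cos_sq_add_sin_sq t
  nlinarith

/-- Lifting of circle valued quaternion functions. -/
theorem ce_lift {X : Type*} [TopologicalSpace X] [SimplyConnectedSpace X]
    [LocallyPathConnectedSpace X] (e : X → ℍ[ℝ]) (he : Continuous e) (hn : ∀ x, ‖e x‖ = 1)
    (hc : ∀ x, qi * e x = e x * qi) :
    ∃ α : X → ℝ, Continuous α ∧ ∀ x, e x = ce (α x) := by
  obtain ⟨α, h1, h2⟩ := circle_lift (fun x => (e x).re) (fun x => (e x).imI)
    (Quaternion.continuous_re.comp he) (Quaternion.continuous_imI.comp he) (by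
      intro x
      have h3 := comm_qi (hc x)
      have h4 : Quaternion.normSq (e x) = 1 := by
        rw [Quaternion.normSq_eq_norm_mul_self, hn x, one_mul]
      rw [Quaternion.normSq_def', h3.1, h3.2] at h4
      nlinarith)
  refine ⟨α, h1, fun x => ?_⟩
  have h3 := comm_qi (hc x)
  have h4 := h2 x
  ext
  · exact h4.1
  · exact h4.2
  · exact h3.1
  · exact h3.2

end H72R
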