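import Mathlib
import Pool.Agent.Lib.H72R.B

/-! # H72R, part C: two equivariant maps from the 3-sphere to the 2-sphere do not exist -/

set_option autoImplicit false

open scoped Quaternion

noncomputable section

namespace H72R

/-- The imaginary unit `k`. -/
def qk : ℍ[ℝ] := ⟨0, 0, 0, 1⟩

@[simp] theorem qk_re : qk.re = 0 := rfl
@[simp] theorem qk_i : qk.imI = 0 := rfl
@[simp] theorem qk_j : qk.imJ = 0 := rfl
@[simp] theorem qk_k : qk.imK = 1 := rfl

/-- Spherical coordinates on the 2-sphere of imaginary units. -/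
def V (s t : ℝ) : ℍ[ℝ] :=
  (Real.sin s * Real.cos t) • qi + (Real.sin s * Real.sin t) • qj + Real.cos s • qk

/-- Spherical coordinates on the 3-sphere. -/
def Ex (θ s t : ℝ) : ℍ[ℝ] := Real.cos θ • (1 : ℍ[ℝ]) + Real.sin θ • V s t

theorem V_norm (s t : ℝ) : ‖V s t‖ = 1 := by
  have h : Quaternion.normSq (V s t) = 1 := by
    rw [Quaternion.normSq_def']
    simp [V]
    have h1 := Real.cos_sq_add_sin_sq s
    have h2 := Real.cos_sq_add_sin_sq t
    nlinarith [mul_comm (Real.sin s ^ 2) (Real.cos t ^ 2)]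
  rw [Quaternion.normSq_eq_norm_mul_self] at h
  nlinarith [norm_nonneg (V s t)]

theorem Ex_norm (θ s t : ℝ) : ‖Ex θ s t‖ = 1 := by
  have h : Quaternion.normSq (Ex θ s t) = 1 := by
    rw [Quaternion.normSq_def']
    simp [Ex, V]
    have h0 := Real.cos_sq_add_sin_sq θ
    have h1 := Real.cos_sq_add_sin_sq s
    have h2 := Real.cos_sq_add_sin_sq t
    have e : Real.cos θ ^ 2 + (Real.sin θ * (Real.sin s * Real.cos t)) ^ 2
        + (Real.sin θ * (Real.sin s * Real.sin t)) ^ 2 + (Real.sin θ * Real.cos s) ^ 2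
        = Real.cos θ ^ 2 + Real.sin θ ^ 2 * (Real.sin s ^ 2 *
          (Real.cos t ^ 2 + Real.sin t ^ 2) + Real.cos s ^ 2) := by ring
    rw [e, h2, mul_one, add_comm (Real.sin s ^ 2), h1, mul_one, h0]
  rw [Quaternion.normSq_eq_norm_mul_self] at h
  nlinarith [norm_nonneg (Ex θ s t)]

theorem Ex_mem (θ s t : ℝ) : Ex θ s t ∈ Metric.sphere (0 : ℍ[ℝ]) 1 := by
  rw [mem_sphere_zero_iff_norm]
  exact Ex_norm θ s t

theorem Ex_continuous {Y : Type*} [TopologicalSpace Y] {f g h : Y → ℝ} (hf : Continuous f)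
    (hg : Continuous g) (hh : Continuous h) : Continuous fun y => Ex (f y) (g y) (h y) := by
  unfold Ex V
  fun_prop

theorem star_Ex (θ s t : ℝ) : star (Ex θ s t) = Ex θ (Real.pi - s) (t + Real.pi) := by
  ext <;> simp [Ex, V]

theorem Ex_period (θ s t : ℝ) : Ex θ s (t + 2 * Real.pi) = Ex θ s t := by
  unfold Ex V
  rw [Real.cos_add_two_pi, Real.sin_add_two_pi]

theorem Ex_zero (s t : ℝ) : Ex 0 s t = 1 := by
  simp [Ex]

theorem Ex_pi (s t : ℝ) : Ex Real.pi s t = -1 := by
  simp [Ex]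

theorem Ex_pole (θ t : ℝ) : Ex θ 0 t = Ex θ 0 0 := by
  simp [Ex, V]

theorem Ex_half (s t : ℝ) :
    Ex (Real.pi / 2) (Real.pi - s) (t + Real.pi) = -Ex (Real.pi / 2) s t := by
  ext <;> simp [Ex, V]

theorem Ex_dist (θ θ' s t : ℝ) : ‖Ex θ s t - Ex θ' s t‖ ≤ 2 * |θ - θ'| := by
  have e : Ex θ s t - Ex θ' s t = (Real.cos θ - Real.cos θ') • (1 : ℍ[ℝ])
      + (Real.sin θ - Real.sin θ') • V s t := by
    unfold Ex
    rw [sub_smul, sub_smul]
    abel
  rw [e]
  refine (norm_add_le _ _).trans ?_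
  rw [norm_smul, norm_smul, V_norm, norm_one, mul_one, mul_one, Real.norm_eq_abs,
    Real.norm_eq_abs]
  have h1 : |Real.cos θ - Real.cos θ'| ≤ |θ - θ'| := by
    have := Real.lipschitzWith_cos.dist_le_mul θ θ'
    simpa [Real.dist_eq] using this
  have h2 : |Real.sin θ - Real.sin θ'| ≤ |θ - θ'| := by
    have := Real.lipschitzWith_sin.dist_le_mul θ θ'
    simpa [Real.dist_eq] using this
  linarith

/-- The lift along the radius `θ`. -/
def L (q : ℍ[ℝ] → ℍ[ℝ]) (N : ℕ) (θ s t : ℝ) : ℍ[ℝ] :=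
  tel (fun k => q (Ex (θ * k / N) s t)) N

/-- The data: a continuous map from the 3-sphere to the imaginary units, and the number of steps. -/
structure Good (q : ℍ[ℝ] → ℍ[ℝ]) (N : ℕ) : Prop where
  pos : 0 < N
  cont : ContinuousOn q (Metric.sphere 0 1)
  sq : ∀ x ∈ Metric.sphere (0 : ℍ[ℝ]) 1, q x * q x = -1
  step : ∀ θ s t : ℝ, |θ| ≤ Real.pi → ∀ k : ℕ,
    ‖q (Ex (θ * k / N) s t) - q (Ex (θ * (k + 1 : ℕ) / N) s t)‖ < 2

theorem exists_good (q : ℍ[ℝ] → ℍ[ℝ]) (hc : ContinuousOn q (Metric.sphere 0 1))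
    (hq : ∀ x ∈ Metric.sphere (0 : ℍ[ℝ]) 1, q x * q x = -1) : ∃ N, Good q N := by
  have hu := (isCompact_sphere (0 : ℍ[ℝ]) 1).uniformContinuousOn_of_continuous hc
  rw [Metric.uniformContinuousOn_iff] at hu
  obtain ⟨δ, hδ, h⟩ := hu 2 (by norm_num)
  obtain ⟨N, hN⟩ := exists_nat_gt (2 * Real.pi / δ)
  have hN0 : (0 : ℝ) < N := lt_trans (by positivity) hN
  refine ⟨N, ⟨by exact_mod_cast hN0, hc, hq, fun θ s t hθ k => ?_⟩⟩
  rw [← dist_eq_norm]
  refine h _ (Ex_mem _ _ _) _ (Ex_mem _ _ _) ?_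
  rw [dist_eq_norm]
  refine (Ex_dist _ _ _ _).trans_lt ?_
  have e : θ * k / N - θ * (k + 1 : ℕ) / N = -(θ / N) := by
    push_cast
    field_simp
    ring
  rw [e, abs_neg, abs_div, abs_of_pos hN0]
  rw [div_lt_iff₀ hδ] at hN
  rw [← mul_div_assoc, div_lt_iff₀ hN0]
  nlinarith

theorem L_norm {q : ℍ[ℝ] → ℍ[ℝ]} {N : ℕ} (hg : Good q N) {θ : ℝ} (hθ : |θ| ≤ Real.pi) (s t : ℝ) :
    ‖L q N θ s t‖ = 1 :=
  tel_norm _ (fun _ => hg.sq _ (Ex_mem _ _ _)) (fun k => hg.step θ s t hθ k) N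

theorem L_mul {q : ℍ[ℝ] → ℍ[ℝ]} {N : ℕ} (hg : Good q N) (θ s t : ℝ) :
    L q N θ s t * q 1 = q (Ex θ s t) * L q N θ s t := by
  have h := tel_mul (fun k => q (Ex (θ * k / N) s t)) (fun _ => hg.sq _ (Ex_mem _ _ _)) N
  have hN : (N : ℝ) ≠ 0 := by
    have := hg.pos
    positivity
  simp only [Nat.cast_zero, mul_zero, zero_div, Ex_zero] at h
  rw [mul_div_assoc, div_self hN, mul_one] at h
  exact h

theorem L_continuous {q : ℍ[ℝ] → ℍ[ℝ]} {N : ℕ} (hg : Good q N) {Y : Type*} [TopologicalSpace Y]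
    {f g h : Y → ℝ} (hf : Continuous f) (hgc : Continuous g) (hh : Continuous h)
    (hb : ∀ y, |f y| ≤ Real.pi) : Continuous fun y => L q N (f y) (g y) (h y) := by
  refine tel_continuous (fun y k => q (Ex (f y * k / N) (g y) (h y)))
    (fun y _ => hg.sq _ (Ex_mem _ _ _)) (fun y k => hg.step _ _ _ (hb y) k) (fun k => ?_) N
  exact hg.cont.comp_continuous (Ex_continuous (by fun_prop) hgc hh) (fun y => Ex_mem _ _ _)

theorem L_period (q : ℍ[ℝ] → ℍ[ℝ]) (N : ℕ) (θ s t : ℝ) :
    L q N θ s (t + 2 * Real.pi) = L q N θ s t := by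
  unfold L
  simp only [Ex_period]

theorem L_pole (q : ℍ[ℝ] → ℍ[ℝ]) (N : ℕ) (θ t : ℝ) : L q N θ 0 t = L q N θ 0 0 := by
  unfold L
  congr 1
  funext k
  rw [Ex_pole]

theorem L_zero {q : ℍ[ℝ] → ℍ[ℝ]} {N : ℕ} (hg : Good q N) (s t : ℝ) : L q N 0 s t = 1 := by
  refine tel_const _ (fun _ => hg.sq _ (Ex_mem _ _ _)) (fun k => ?_) N
  simp

theorem mul_star_one {u : ℍ[ℝ]} (hu : ‖u‖ = 1) : u * star u = 1 := by
  rw [Quaternion.self_mul_star, Quaternion.normSq_eq_norm_mul_self, hu]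
  simp

theorem star_mul_one {u : ℍ[ℝ]} (hu : ‖u‖ = 1) : star u * u = 1 := by
  rw [Quaternion.star_mul_self, Quaternion.normSq_eq_norm_mul_self, hu]
  simp

/-- Two solutions of `x i = p x` differ by a complex number. -/
theorem comm_of {p x y : ℍ[ℝ]} (hp : star p = -p) (hx : x * qi = p * x) (hy : y * qi = p * y) :
    qi * (star x * y) = (star x * y) * qi := by
  have h1 : qi * star x = star x * p := by
    have := congrArg star hx
    rw [star_mul, star_mul, star_qi, hp] at this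
    have h2 : -(qi * star x) = -(star x * p) := by
      rw [← neg_mul, this, mul_neg]
    exact neg_injective h2
  rw [← mul_assoc, h1, mul_assoc, ← hy, mul_assoc]

theorem star_of_sq {p : ℍ[ℝ]} (hp : p * p = -1) : star p = -p := by
  have h1 : ‖p‖ = 1 := by
    have h4 : ‖p * p‖ = 1 := by rw [hp]; simp
    rw [norm_mul] at h4
    nlinarith [norm_nonneg p]
  calc star p = star p * (-(p * p)) := by rw [hp]; simp
    _ = -(star p * p * p) := by rw [mul_neg, mul_assoc]
    _ = -p := by rw [star_mul_one h1, one_mul]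

theorem star_flip {w : ℍ[ℝ]} (hw : star w * w = 1) (e : ℍ[ℝ]) :
    star (w * qj * e * qj) * w = qj * star e * qj := by
  rw [star_mul, star_mul, star_mul, star_qj]
  calc -qj * (star e * (-qj * star w)) * w = qj * star e * qj * (star w * w) := by noncomm_ring
    _ = qj * star e * qj := by rw [hw, mul_one]

/-- Periodicity of the lift of a function on the 2-sphere. -/
theorem periodic_lift (α : ℝ × ℝ → ℝ) (hα : Continuous α) (e : ℝ → ℝ → ℍ[ℝ])
    (he : ∀ s t, e s t = ce (α (s, t))) (hp : ∀ s t, e s (t + 2 * Real.pi) = e s t)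
    (h0 : ∀ t, e 0 t = e 0 0) (s t : ℝ) : α (s, t + 2 * Real.pi) = α (s, t) := by
  have h1 : ∀ t, α (0, t) = α (0, 0) := by
    intro t
    have hc : Continuous fun t : ℝ => α (0, t) - α (0, 0) := by fun_prop
    have := const_of_cos (fun t : ℝ => α (0, t) - α (0, 0)) hc 1 (by norm_num) (fun t => by
      refine ce_inj ?_
      rw [← he, ← he]
      exact h0 t) t 0
    simp only [sub_self] at this
    linarith
  have hc : Continuous fun z : ℝ × ℝ => α (z.1, z.2 + 2 * Real.pi) - α (z.1, z.2) := by fun_prop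
  have := const_of_cos (fun z : ℝ × ℝ => α (z.1, z.2 + 2 * Real.pi) - α (z.1, z.2)) hc 1
    (by norm_num) (fun z => by
      refine ce_inj ?_
      rw [← he, ← he]
      exact hp _ _) (s, t) (0, 0)
  simp only [h1] at this
  linarith

/-- There is no continuous map from the 3-sphere to the 2-sphere which is odd on the equator. -/
theorem no_odd (q : ℍ[ℝ] → ℍ[ℝ]) (hc : ContinuousOn q (Metric.sphere 0 1))
    (hq : ∀ x ∈ Metric.sphere (0 : ℍ[ℝ]) 1, q x * q x = -1)
    (ho : ∀ s t, q (-Ex (Real.pi / 2) s t) = -q (Ex (Real.pi / 2) s t)) : False := by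
  obtain ⟨N, hg⟩ := exists_good q hc hq
  have h1m : (1 : ℍ[ℝ]) ∈ Metric.sphere (0 : ℍ[ℝ]) 1 := by simp
  obtain ⟨u0, hu0, hu1⟩ := exists_conj (q 1) (hq 1 h1m)
  have hpi := Real.pi_pos
  have hb : |Real.pi / 2| ≤ Real.pi := by
    rw [abs_of_pos (by positivity)]
    linarith
  set W : ℝ → ℝ → ℍ[ℝ] := fun s t => L q N (Real.pi / 2) s t * u0 with hW
  have hWn : ∀ s t, ‖W s t‖ = 1 := by
    intro s t
    rw [hW]
    simp only
    rw [norm_mul, L_norm hg hb, hu0, one_mul]
  have hWi : ∀ s t, W s t * qi = q (Ex (Real.pi / 2) s t) * W s t := by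
    intro s t
    simp only [hW]
    rw [mul_assoc, hu1, ← mul_assoc, L_mul hg, mul_assoc]
  have hWp : ∀ s t, W s (t + 2 * Real.pi) = W s t := by
    intro s t
    simp only [hW]
    rw [L_period]
  have hW0 : ∀ t, W 0 t = W 0 0 := by
    intro t
    simp only [hW]
    rw [L_pole]
  set e : ℝ → ℝ → ℍ[ℝ] := fun s t => star (W s t * qj) * W (Real.pi - s) (t + Real.pi) with hE
  have hqj : ‖qj‖ = 1 := by
    have h4 : ‖qj * qj‖ = 1 := by rw [qj_sq]; simp
    rw [norm_mul] at h4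
    nlinarith [norm_nonneg qj]
  have hX : ∀ s t, (W s t * qj) * qi = (-q (Ex (Real.pi / 2) s t)) * (W s t * qj) := by
    intro s t
    rw [mul_assoc, qji, mul_neg, ← mul_assoc, hWi]
    noncomm_ring
  have hY : ∀ s t, W (Real.pi - s) (t + Real.pi) * qi
      = (-q (Ex (Real.pi / 2) s t)) * W (Real.pi - s) (t + Real.pi) := by
    intro s t
    rw [hWi, Ex_half, ho]
  have hs : ∀ s t, star (-q (Ex (Real.pi / 2) s t)) = -(-q (Ex (Real.pi / 2) s t)) := by
    intro s t
    rw [star_neg, star_of_sq (hq _ (Ex_mem _ _ _))]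
  have hcomm : ∀ s t, qi * e s t = e s t * qi := fun s t => comm_of (hs s t) (hX s t) (hY s t)
  have hen : ∀ s t, ‖e s t‖ = 1 := by
    intro s t
    simp only [hE]
    rw [norm_mul, norm_star, norm_mul, hWn, hWn, hqj]
    norm_num
  have hWc : Continuous fun z : ℝ × ℝ => W z.1 z.2 := by
    simp only [hW]
    exact (L_continuous hg continuous_const continuous_fst continuous_snd (fun _ => hb)).mul
      continuous_const
  have hWc2 : Continuous fun z : ℝ × ℝ => W (Real.pi - z.1) (z.2 + Real.pi) := by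
    simp only [hW]
    exact (L_continuous hg continuous_const (by fun_prop) (by fun_prop) (fun _ => hb)).mul
      continuous_const
  have hec : Continuous fun z : ℝ × ℝ => e z.1 z.2 := by
    simp only [hE]
    exact ((hWc.mul continuous_const).star).mul hWc2
  obtain ⟨α, hα, hαe⟩ := ce_lift (fun z : ℝ × ℝ => e z.1 z.2) hec (fun z => hen _ _)
    (fun z => hcomm _ _)
  have hαe' : ∀ s t, e s t = ce (α (s, t)) := fun s t => hαe (s, t)
  have hep : ∀ s t, e s (t + 2 * Real.pi) = e s t := by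
    intro s t
    simp only [hE]
    rw [hWp, show t + 2 * Real.pi + Real.pi = t + Real.pi + 2 * Real.pi by ring, hWp]
  have hWpi : ∀ t, W Real.pi t = W Real.pi 0 := by
    intro t
    have h5 : ∀ θ t, Ex θ Real.pi t = Ex θ Real.pi 0 := by
      intro θ t
      simp [Ex, V]
    simp only [hW, L, h5 _ t]
  have he0 : ∀ t, e 0 t = e 0 0 := by
    intro t
    simp only [hE]
    rw [hW0 t, sub_zero, hWpi, hWpi (0 + Real.pi)]
  have hper := periodic_lift α hα e hαe' hep he0
  have hflip : ∀ s t, e (Real.pi - s) (t + Real.pi) = -e s t := by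
    intro s t
    have h1 : W (Real.pi - s) (t + Real.pi) = W s t * qj * e s t := by
      simp only [hE]
      rw [← mul_assoc, mul_star_one, one_mul]
      rw [norm_mul, hWn, hqj, one_mul]
    have h2 : W (Real.pi - (Real.pi - s)) (t + Real.pi + Real.pi) = W s t := by
      rw [show Real.pi - (Real.pi - s) = s by ring,
        show t + Real.pi + Real.pi = t + 2 * Real.pi by ring, hWp]
    have h3 : e (Real.pi - s) (t + Real.pi)
        = star (W s t * qj * e s t * qj) * W s t := by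
      have : e (Real.pi - s) (t + Real.pi) = star (W (Real.pi - s) (t + Real.pi) * qj)
          * W (Real.pi - (Real.pi - s)) (t + Real.pi + Real.pi) := rfl
      rw [this, h2, h1]
    have h4 : star (W s t * qj * e s t * qj) * W s t = qj * star (e s t) * qj :=
      star_flip (star_mul_one (hWn s t)) _
    have h5 : qj * star (e s t) * qj = -e s t := by
      rw [hαe' s t]
      ext <;> simp
    rw [h3, h4, h5]
  have hcd : Continuous fun z : ℝ × ℝ => α (Real.pi - z.1, z.2 + Real.pi) - α (z.1, z.2) := by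
    fun_prop
  have hconst := const_of_cos
    (fun z : ℝ × ℝ => α (Real.pi - z.1, z.2 + Real.pi) - α (z.1, z.2)) hcd (-1) (by norm_num)
    (fun z => by
      refine ce_neg_inj ?_
      rw [← hαe', ← hαe']
      exact hflip _ _)
  have h6 := hconst (0, 0) (Real.pi, Real.pi)
  have h7 : α (0, Real.pi + Real.pi) = α (0, 0) := by
    have := hper 0 0
    rwa [zero_add, two_mul] at this
  have h8 : Real.cos (α (Real.pi - 0, 0 + Real.pi) - α (0, 0)) = -1 := by
    refine ce_neg_inj ?_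
    rw [← hαe', ← hαe']
    exact hflip _ _
  simp only [sub_zero, zero_add, sub_self] at h6 h8
  rw [h7] at h6
  have h9 : α (Real.pi, Real.pi) - α (0, 0) = 0 := by linarith
  rw [h9, Real.cos_zero] at h8
  norm_num at h8

end H72R
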