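import Mathlib
import Pool.Agent.Lib.H72R.C

/-! # H72R, part D: the equivariant map for the point reflection does not exist -/

set_option autoImplicit false

open scoped Quaternion

noncomputable section

namespace H72R

theorem star_swap (x w w' : ℍ[ℝ]) : star (star x * w') * w = star (star (x * w) * w') := by
  rw [star_mul, star_mul (star (x * w)), star_star, star_star, mul_assoc]

/-- There is no continuous map `q` from the 3-sphere to the 2-sphere of imaginary units with
`q (star x) = x q(x) star x`. -/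
theorem no_conj (q : ℍ[ℝ] → ℍ[ℝ]) (hc : ContinuousOn q (Metric.sphere 0 1))
    (hq : ∀ x ∈ Metric.sphere (0 : ℍ[ℝ]) 1, q x * q x = -1)
    (ho : ∀ x ∈ Metric.sphere (0 : ℍ[ℝ]) 1, q (star x) = x * q x * star x) : False := by
  obtain ⟨N, hg⟩ := exists_good q hc hq
  have h1m : (1 : ℍ[ℝ]) ∈ Metric.sphere (0 : ℍ[ℝ]) 1 := by simp
  obtain ⟨u0, hu0, hu1⟩ := exists_conj (q 1) (hq 1 h1m)
  have hpi := Real.pi_pos
  set θ : ℝ → ℝ := fun τ => Real.pi * (1 - Real.cos τ) / 2 with hθ
  have hθc : Continuous θ := by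
    simp only [hθ]
    fun_prop
  have hθb : ∀ τ, |θ τ| ≤ Real.pi := by
    intro τ
    have h1 := Real.cos_le_one τ
    have h2 := Real.neg_one_le_cos τ
    rw [abs_le]
    simp only [hθ]
    constructor <;> nlinarith
  have hθ0 : θ 0 = 0 := by simp [hθ]
  have hθ1 : θ Real.pi = Real.pi := by
    simp only [hθ, Real.cos_pi]
    ring
  set W : ℝ → ℝ → ℝ → ℍ[ℝ] := fun τ s t => L q N (θ τ) s t * u0 with hW
  have hWn : ∀ τ s t, ‖W τ s t‖ = 1 := by
    intro τ s t
    simp only [hW]
    rw [norm_mul, L_norm hg (hθb τ), hu0, one_mul]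
  have hWi : ∀ τ s t, W τ s t * qi = q (Ex (θ τ) s t) * W τ s t := by
    intro τ s t
    simp only [hW]
    rw [mul_assoc, hu1, ← mul_assoc, L_mul hg, mul_assoc]
  have hWp : ∀ τ s t, W τ s (t + 2 * Real.pi) = W τ s t := by
    intro τ s t
    simp only [hW]
    rw [L_period]
  have hW0 : ∀ τ t, W τ 0 t = W τ 0 0 := by
    intro τ t
    simp only [hW]
    rw [L_pole]
  set e : ℝ → ℝ → ℝ → ℍ[ℝ] := fun τ s t =>
    star (Ex (θ τ) s t * W τ s t) * W τ (Real.pi - s) (t + Real.pi) with hE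
  have hX : ∀ τ s t, (Ex (θ τ) s t * W τ s t) * qi
      = q (star (Ex (θ τ) s t)) * (Ex (θ τ) s t * W τ s t) := by
    intro τ s t
    rw [ho _ (Ex_mem _ _ _), mul_assoc, hWi]
    have h5 := star_mul_one (Ex_norm (θ τ) s t)
    calc Ex (θ τ) s t * (q (Ex (θ τ) s t) * W τ s t)
        = Ex (θ τ) s t * q (Ex (θ τ) s t) * 1 * W τ s t := by noncomm_ring
      _ = Ex (θ τ) s t * q (Ex (θ τ) s t) * (star (Ex (θ τ) s t) * Ex (θ τ) s t) * W τ s t := by
          rw [h5]
      _ = _ := by noncomm_ring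
  have hY : ∀ τ s t, W τ (Real.pi - s) (t + Real.pi) * qi
      = q (star (Ex (θ τ) s t)) * W τ (Real.pi - s) (t + Real.pi) := by
    intro τ s t
    rw [hWi, star_Ex]
  have hstar : ∀ x ∈ Metric.sphere (0 : ℍ[ℝ]) 1, star x ∈ Metric.sphere (0 : ℍ[ℝ]) 1 := by
    intro x hx
    rw [mem_sphere_zero_iff_norm] at hx ⊢
    rw [norm_star, hx]
  have hs : ∀ τ s t, star (q (star (Ex (θ τ) s t))) = -q (star (Ex (θ τ) s t)) := by
    intro τ s t
    exact star_of_sq (hq _ (hstar _ (Ex_mem _ _ _)))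
  have hcomm : ∀ τ s t, qi * e τ s t = e τ s t * qi :=
    fun τ s t => comm_of (hs τ s t) (hX τ s t) (hY τ s t)
  have hen : ∀ τ s t, ‖e τ s t‖ = 1 := by
    intro τ s t
    simp only [hE]
    rw [norm_mul, norm_star, norm_mul, hWn, hWn, Ex_norm]
    norm_num
  have hWc : ∀ {Y : Type} [TopologicalSpace Y] {f g h : Y → ℝ}, Continuous f → Continuous g →
      Continuous h → Continuous fun y => W (f y) (g y) (h y) := by
    intro Y _ f g h hf hgc hh
    simp only [hW]
    exact (L_continuous hg (hθc.comp hf) hgc hh (fun y => hθb (f y))).mul continuous_const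
  have hec : Continuous fun z : ℝ × ℝ × ℝ => e z.1 z.2.1 z.2.2 := by
    simp only [hE]
    refine Continuous.mul (Continuous.star ?_) (hWc (by fun_prop) (by fun_prop) (by fun_prop))
    exact (Ex_continuous (hθc.comp (by fun_prop)) (by fun_prop) (by fun_prop)).mul
      (hWc (by fun_prop) (by fun_prop) (by fun_prop))
  obtain ⟨α, hα, hαe⟩ := ce_lift (fun z : ℝ × ℝ × ℝ => e z.1 z.2.1 z.2.2) hec
    (fun z => hen _ _ _) (fun z => hcomm _ _ _)
  have hαe' : ∀ τ s t, e τ s t = ce (α (τ, s, t)) := fun τ s t => hαe (τ, s, t)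
  have hcestar : ∀ a : ℝ, star (ce a) = ce (-a) := by
    intro a
    ext <;> simp
  have hflip : ∀ τ s t, e τ (Real.pi - s) (t + Real.pi) = star (e τ s t) := by
    intro τ s t
    have h2 : W τ (Real.pi - (Real.pi - s)) (t + Real.pi + Real.pi) = W τ s t := by
      rw [show Real.pi - (Real.pi - s) = s by ring,
        show t + Real.pi + Real.pi = t + 2 * Real.pi by ring, hWp]
    have h3 : e τ (Real.pi - s) (t + Real.pi)
        = star (star (Ex (θ τ) s t) * W τ (Real.pi - s) (t + Real.pi)) * W τ s t := by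
      have : e τ (Real.pi - s) (t + Real.pi)
          = star (Ex (θ τ) (Real.pi - s) (t + Real.pi) * W τ (Real.pi - s) (t + Real.pi))
          * W τ (Real.pi - (Real.pi - s)) (t + Real.pi + Real.pi) := rfl
      rw [this, h2, ← star_Ex]
    rw [h3, star_swap]
  have hS : Continuous fun z : ℝ × ℝ × ℝ =>
      α (z.1, Real.pi - z.2.1, z.2.2 + Real.pi) - (-α (z.1, z.2.1, z.2.2)) := by fun_prop
  have hSc := const_of_cos (fun z : ℝ × ℝ × ℝ =>
      α (z.1, Real.pi - z.2.1, z.2.2 + Real.pi) - (-α (z.1, z.2.1, z.2.2))) hS 1 (by norm_num)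
    (fun z => by
      refine ce_inj ?_
      rw [← hαe', ← hcestar, ← hαe']
      exact hflip _ _ _)
  have he0 : ∀ s t, e 0 s t = ce 0 := by
    intro s t
    have hce : ce 0 = 1 := by
      ext <;> simp
    simp only [hE, hW, hθ0]
    rw [Ex_zero, L_zero hg, L_zero hg, one_mul, one_mul, star_mul_one hu0, hce]
  have hA : ∀ s t, α (0, s, t) = α (0, 0, 0) := by
    intro s t
    have := const_of_cos (fun z : ℝ × ℝ => α (0, z.1, z.2)) (by fun_prop) 1 (by norm_num)
      (fun z => by
        have h7 : ce (α (0, z.1, z.2)) = ce 0 := by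
          rw [← hαe', he0]
        have := ce_inj h7
        rwa [sub_zero] at this) (s, t) (0, 0)
    exact this
  have hAcos : Real.cos (α (0, 0, 0)) = 1 := by
    have h7 : ce (α (0, 0, 0)) = ce 0 := by
      rw [← hαe', he0]
    have := ce_inj h7
    rwa [sub_zero] at this
  set A := α (0, 0, 0) with hAdef
  have hS1 : α (Real.pi, Real.pi - 0, 0 + Real.pi) + α (Real.pi, 0, 0) = 2 * A := by
    have := hSc (Real.pi, 0, 0) (0, 0, 0)
    simp only [sub_neg_eq_add] at this
    rw [this, hA]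
    ring
  set B : ℝ → ℝ → ℍ[ℝ] := fun s t => star (W Real.pi 0 0) * W Real.pi s t with hB
  have hWpi : ∀ s t, W Real.pi s t * qi = q (-1) * W Real.pi s t := by
    intro s t
    have := hWi Real.pi s t
    rwa [hθ1, Ex_pi] at this
  have hm1 : (-1 : ℍ[ℝ]) ∈ Metric.sphere (0 : ℍ[ℝ]) 1 := by simp
  have hBcomm : ∀ s t, qi * B s t = B s t * qi :=
    fun s t => comm_of (star_of_sq (hq _ hm1)) (hWpi 0 0) (hWpi s t)
  have hBn : ∀ s t, ‖B s t‖ = 1 := by
    intro s t
    simp only [hB]
    rw [norm_mul, norm_star, hWn, hWn, one_mul]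
  have hBc : Continuous fun z : ℝ × ℝ => B z.1 z.2 := by
    simp only [hB]
    exact continuous_const.mul (hWc continuous_const (by fun_prop) (by fun_prop))
  obtain ⟨β, hβ, hβe⟩ := ce_lift (fun z : ℝ × ℝ => B z.1 z.2) hBc (fun z => hBn _ _)
    (fun z => hBcomm _ _)
  have hβe' : ∀ s t, B s t = ce (β (s, t)) := fun s t => hβe (s, t)
  have hBp : ∀ s t, B s (t + 2 * Real.pi) = B s t := by
    intro s t
    simp only [hB]
    rw [hWp]
  have hB0 : ∀ t, B 0 t = B 0 0 := by
    intro t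
    have h10 : ∀ s t, B s t = star (W Real.pi 0 0) * W Real.pi s t := fun _ _ => rfl
    rw [h10 0 t, h10 0 0, hW0 Real.pi t]
  have hper := periodic_lift β hβ B hβe' hBp hB0
  have hBflip : ∀ s t, B (Real.pi - s) (t + Real.pi) = -(ce (β (s, t) + α (Real.pi, s, t))) := by
    intro s t
    have h1 : W Real.pi (Real.pi - s) (t + Real.pi) = -(W Real.pi s t * e Real.pi s t) := by
      have h8 : e Real.pi s t = star (-W Real.pi s t) * W Real.pi (Real.pi - s) (t + Real.pi) := by
        simp only [hE]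
        rw [hθ1, Ex_pi, neg_one_mul]
      rw [h8, star_neg, neg_mul, mul_neg, neg_neg, ← mul_assoc, mul_star_one (hWn _ _ _), one_mul]
    have h2 : B (Real.pi - s) (t + Real.pi) = -(B s t * e Real.pi s t) := by
      have : B (Real.pi - s) (t + Real.pi)
          = star (W Real.pi 0 0) * W Real.pi (Real.pi - s) (t + Real.pi) := rfl
      have h10 : B s t = star (W Real.pi 0 0) * W Real.pi s t := rfl
      rw [this, h1, h10, mul_neg, mul_assoc (star (W Real.pi 0 0))]
    rw [h2, hβe', hαe', ce_mul]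
  have hcd : Continuous fun z : ℝ × ℝ =>
      β (Real.pi - z.1, z.2 + Real.pi) - (β (z.1, z.2) + α (Real.pi, z.1, z.2)) := by
    fun_prop
  have hcos : ∀ z : ℝ × ℝ, Real.cos (β (Real.pi - z.1, z.2 + Real.pi)
      - (β (z.1, z.2) + α (Real.pi, z.1, z.2))) = -1 := by
    intro z
    refine ce_neg_inj ?_
    rw [← hβe']
    exact hBflip _ _
  have hconst := const_of_cos (fun z : ℝ × ℝ =>
      β (Real.pi - z.1, z.2 + Real.pi) - (β (z.1, z.2) + α (Real.pi, z.1, z.2))) hcd (-1)
    (by norm_num) hcos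
  have h6 := hconst (0, 0) (Real.pi, Real.pi)
  have h7 : β (0, Real.pi + Real.pi) = β (0, 0) := by
    have := hper 0 0
    rwa [zero_add, two_mul] at this
  have h8 := hcos (0, 0)
  simp only [sub_zero, zero_add, sub_self] at h6 h8 hS1
  rw [h7] at h6
  have h9 : β (Real.pi, Real.pi) - (β (0, 0) + α (Real.pi, 0, 0)) = -A := by linarith
  rw [h9, Real.cos_neg, hAcos] at h8
  norm_num at h8

end H72R
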