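import Mathlib
import Pool.Agent.Lib.H72R.D

/-! # H72R, part E: maps of the 3-sphere near the identity and involutions -/

set_option autoImplicit false

open scoped Quaternion

noncomputable section

namespace H72R

theorem im_sub' (a b : ℍ[ℝ]) : (a - b).im = a.im - b.im := by
  ext <;> simp

theorem im_neg' (a : ℍ[ℝ]) : (-a).im = -a.im := by
  ext <;> simp

theorem im_star' (a : ℍ[ℝ]) : (star a).im = -a.im := by
  ext <;> simp

/-- The imaginary part of a conjugate. -/
theorem im_conj {x : ℍ[ℝ]} (hx : ‖x‖ = 1) (z : ℍ[ℝ]) : (x * z * star x).im = x * z.im * star x := by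
  have h1 : z = (z.re : ℍ[ℝ]) + z.im := by
    ext <;> simp
  have h2 : x * z * star x = (z.re : ℍ[ℝ]) + x * z.im * star x := by
    have h3 : x * (z.re : ℍ[ℝ]) = (z.re : ℍ[ℝ]) * x := by
      ext <;> simp <;> ring
    calc x * z * star x = x * ((z.re : ℍ[ℝ]) + z.im) * star x := by rw [← h1]
      _ = x * (z.re : ℍ[ℝ]) * star x + x * z.im * star x := by rw [mul_add, add_mul]
      _ = (z.re : ℍ[ℝ]) * (x * star x) + x * z.im * star x := by rw [h3, mul_assoc]
      _ = _ := by rw [mul_star_one hx, mul_one]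
  have h4 : (x * z.im * star x).re = 0 := by
    simp
    ring
  rw [h2]
  ext
  · simp only [Quaternion.re_im]
    exact h4.symm
  · simp
  · simp
  · simp

/-- Two unit quaternions near `x` have different imaginary parts relative to `x`. -/
theorem im_ne {x a b : ℍ[ℝ]} (hx : ‖x‖ = 1) (ha : ‖a‖ = 1) (hb : ‖b‖ = 1) (hax : ‖a - x‖ < 1)
    (hbx : ‖b - x‖ < 1) (hab : a ≠ b) : (star x * (a - b)).im ≠ 0 := by
  intro h
  apply hab
  have key : ∀ c : ℍ[ℝ], ‖c‖ = 1 → ‖c - x‖ < 1 → 1 / 2 < (star x * c).re ∧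
      Quaternion.normSq (star x * c) = 1 := by
    intro c hc hcx
    have h1 : star x * c - 1 = star x * (c - x) := by
      rw [mul_sub, star_mul_one hx]
    have h2 : ‖star x * c - 1‖ < 1 := by
      rw [h1, norm_mul, norm_star, hx, one_mul]
      exact hcx
    have h3 : Quaternion.normSq (star x * c) = 1 := by
      rw [Quaternion.normSq_eq_norm_mul_self, norm_mul, norm_star, hx, hc]
      norm_num
    have h4 : Quaternion.normSq (star x * c - 1) < 1 := by
      rw [Quaternion.normSq_eq_norm_mul_self]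
      nlinarith [norm_nonneg (star x * c - 1)]
    refine ⟨?_, h3⟩
    rw [Quaternion.normSq_def'] at h3 h4
    simp only [Quaternion.re_sub, Quaternion.imI_sub, Quaternion.imJ_sub, Quaternion.imK_sub,
      Quaternion.re_one, Quaternion.imI_one, Quaternion.imJ_one, Quaternion.imK_one, sub_zero] at h4
    nlinarith
  obtain ⟨ha1, ha2⟩ := key a ha hax
  obtain ⟨hb1, hb2⟩ := key b hb hbx
  have h5 : (star x * a).im = (star x * b).im := by
    rw [mul_sub, im_sub', sub_eq_zero] at h
    exact h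
  have hi := congrArg (fun z : ℍ[ℝ] => z.imI) h5
  have hj := congrArg (fun z : ℍ[ℝ] => z.imJ) h5
  have hk := congrArg (fun z : ℍ[ℝ] => z.imK) h5
  simp only [Quaternion.imI_im, Quaternion.imJ_im, Quaternion.imK_im] at hi hj hk
  have hr : (star x * a).re = (star x * b).re := by
    rw [Quaternion.normSq_def', hi, hj, hk] at ha2
    rw [Quaternion.normSq_def'] at hb2
    have : (star x * a).re ^ 2 = (star x * b).re ^ 2 := by linarith
    nlinarith
  have h6 : star x * a = star x * b := by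
    ext
    · exact hr
    · exact hi
    · exact hj
    · exact hk
  calc a = x * star x * a := by rw [mul_star_one hx, one_mul]
    _ = x * (star x * a) := by rw [mul_assoc]
    _ = x * (star x * b) := by rw [h6]
    _ = x * star x * b := by rw [mul_assoc]
    _ = b := by rw [mul_star_one hx, one_mul]

/-- The normalised imaginary quaternion. -/
def nrm (p : ℍ[ℝ]) : ℍ[ℝ] := (‖p‖⁻¹ : ℝ) • p

theorem nrm_sq {p : ℍ[ℝ]} (hp : star p = -p) (h0 : p ≠ 0) : nrm p * nrm p = -1 := by
  unfold nrm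
  have hn : ‖p‖ ≠ 0 := norm_ne_zero_iff.2 h0
  have h1 : p * p = -((‖p‖ * ‖p‖ : ℝ) : ℍ[ℝ]) := by
    have h2 : star p * p = ((‖p‖ * ‖p‖ : ℝ) : ℍ[ℝ]) := by
      rw [Quaternion.star_mul_self, Quaternion.normSq_eq_norm_mul_self]
    rw [hp] at h2
    rw [← h2]
    simp
  rw [smul_mul_smul_comm, h1, smul_neg, ← Quaternion.coe_smul, smul_eq_mul]
  have : ‖p‖⁻¹ * ‖p‖⁻¹ * (‖p‖ * ‖p‖) = 1 := by
    field_simp
  rw [this]
  simp

theorem nrm_neg (p : ℍ[ℝ]) : nrm (-p) = -nrm p := by
  unfold nrm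
  rw [norm_neg, smul_neg]

theorem nrm_conj {x : ℍ[ℝ]} (hx : ‖x‖ = 1) (p : ℍ[ℝ]) :
    nrm (x * p * star x) = x * nrm p * star x := by
  unfold nrm
  rw [norm_mul, norm_mul, norm_star, hx, one_mul, mul_one, mul_smul_comm, smul_mul_assoc]

/-- The setting: a map of the sphere within distance `1` of the identity. -/
structure Near (F : ℍ[ℝ] → ℍ[ℝ]) : Prop where
  cont : ContinuousOn F (Metric.sphere 0 1)
  nm : ∀ x, ‖x‖ = 1 → ‖F x‖ = 1
  near : ∀ x, ‖x‖ = 1 → ‖F x - x‖ < 1

/-- The imaginary direction of `F - R F R`. -/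
def qq (F R : ℍ[ℝ] → ℍ[ℝ]) (x : ℍ[ℝ]) : ℍ[ℝ] := nrm (star x * (F x - R (F (R x)))).im

theorem qq_facts {F R : ℍ[ℝ] → ℍ[ℝ]} (hF : Near F) (hRc : Continuous R)
    (hRn : ∀ x y, ‖R x - R y‖ = ‖x - y‖) (hRR : ∀ x, R (R x) = x) (hR0 : ∀ x, ‖R x‖ = ‖x‖)
    (hne : ∀ x, ‖x‖ = 1 → F x ≠ R (F (R x))) :
    ContinuousOn (qq F R) (Metric.sphere 0 1) ∧
      ∀ x ∈ Metric.sphere (0 : ℍ[ℝ]) 1, qq F R x * qq F R x = -1 := by
  have hp : ∀ x, ‖x‖ = 1 → (star x * (F x - R (F (R x)))).im ≠ 0 := by
    intro x hx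
    refine im_ne hx (hF.nm x hx) ?_ (hF.near x hx) ?_ (hne x hx)
    · rw [hR0]
      exact hF.nm _ (by rw [hR0, hx])
    · have h1 := hF.near (R x) (by rw [hR0, hx])
      have h2 := hRn (F (R x)) (R x)
      rw [hRR] at h2
      rw [h2]
      exact h1
  have hmem : ∀ x : ℍ[ℝ], x ∈ Metric.sphere (0 : ℍ[ℝ]) 1 ↔ ‖x‖ = 1 := by
    intro x
    rw [mem_sphere_zero_iff_norm]
  constructor
  · have h1 : ContinuousOn (fun x => F x - R (F (R x))) (Metric.sphere 0 1) := by
      refine hF.cont.sub (hRc.comp_continuousOn ?_)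
      refine hF.cont.comp hRc.continuousOn ?_
      intro x hx
      rw [hmem] at hx ⊢
      rw [hR0, hx]
    have h2 : ContinuousOn (fun x : ℍ[ℝ] => (star x * (F x - R (F (R x)))).im)
        (Metric.sphere 0 1) := by
      refine Quaternion.continuous_im.comp_continuousOn ?_
      exact continuous_star.continuousOn.mul h1
    have h3 : ContinuousOn (fun x : ℍ[ℝ] => ‖(star x * (F x - R (F (R x)))).im‖⁻¹)
        (Metric.sphere 0 1) :=
      h2.norm.inv₀ (fun x hx => norm_ne_zero_iff.2 (hp x ((hmem x).1 hx)))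
    exact h3.smul h2
  · intro x hx
    refine nrm_sq ?_ (hp x ((hmem x).1 hx))
    ext <;> simp

/-- Antipodal map. -/
theorem near_neg {F : ℍ[ℝ] → ℍ[ℝ]} (hF : Near F) : ∃ x, ‖x‖ = 1 ∧ F x = -F (-x) := by
  by_contra hcon
  push Not at hcon
  obtain ⟨h1, h2⟩ := qq_facts (R := fun x => -x) hF continuous_neg
    (fun x y => by rw [neg_sub_neg, norm_sub_rev]) (fun x => neg_neg x) (fun x => norm_neg x) hcon
  refine no_odd _ h1 h2 ?_
  intro s t
  set x := Ex (Real.pi / 2) s t with hx
  have h3 : nrm (star (-x) * (F (-x) - -F (-(-x)))).im = -nrm (star x * (F x - -F (-x))).im := by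
    rw [neg_neg, ← nrm_neg, ← im_neg', star_neg]
    congr 2
    noncomm_ring
  exact h3

/-- Conjugation. -/
theorem near_star {F : ℍ[ℝ] → ℍ[ℝ]} (hF : Near F) : ∃ x, ‖x‖ = 1 ∧ F x = star (F (star x)) := by
  by_contra hcon
  push Not at hcon
  obtain ⟨h1, h2⟩ := qq_facts (R := fun x => star x) hF continuous_star
    (fun x y => by rw [← star_sub, norm_star]) (fun x => star_star x) (fun x => norm_star x) hcon
  refine no_conj _ h1 h2 ?_
  intro x hx
  rw [mem_sphere_zero_iff_norm] at hx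
  have h4 : nrm (star (star x) * (F (star x) - star (F (star (star x))))).im
      = x * nrm (star x * (F x - star (F (star x)))).im * star x := ?_
  · exact h4
  rw [← nrm_conj hx, ← im_conj hx, star_star]
  have h3 : x * (star x * (F x - star (F (star x)))) * star x
      = -star (x * (F (star x) - star (F x))) := by
    rw [← mul_assoc, mul_star_one hx, one_mul, star_mul, star_sub, star_star]
    noncomm_ring
  rw [h3, im_neg', im_star', neg_neg]

/-- Minus conjugation. -/
theorem near_neg_star {F : ℍ[ℝ] → ℍ[ℝ]} (hF : Near F) :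
    ∃ x, ‖x‖ = 1 ∧ F x = -star (F (-star x)) := by
  by_contra hcon
  push Not at hcon
  obtain ⟨h1, h2⟩ := qq_facts (R := fun x => -star x) hF (continuous_star.neg)
    (fun x y => by rw [neg_sub_neg, ← star_sub, norm_star, norm_sub_rev])
    (fun x => by rw [star_neg, neg_neg, star_star]) (fun x => by rw [norm_neg, norm_star]) hcon
  have hconj : ∀ x : ℍ[ℝ], ‖x‖ = 1 →
      qq F (fun x => -star x) (-star x) = x * qq F (fun x => -star x) x * star x := by
    intro x hx
    unfold qq
    rw [← nrm_conj hx, ← im_conj hx]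
    have h3 : x * (star x * (F x - -star (F (-star x)))) * star x
        = -star (star (-star x) * (F (-star x) - -star (F (-star (-star x))))) := by
      have h4 : -star (-star x) = x := by rw [star_neg, neg_neg, star_star]
      rw [h4, ← mul_assoc, mul_star_one hx, one_mul, star_mul, star_sub, star_neg, star_star,
        star_star]
      noncomm_ring
    rw [h3, im_neg', im_star', neg_neg]
  set q := qq F (fun x => -star x) with hq
  refine no_odd q h1 h2 ?_
  have hv : ∀ s t, -star (Ex (Real.pi / 2) s t) = Ex (Real.pi / 2) s t := by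
    intro s t
    ext <;> simp [Ex, V]
  have hvn : ∀ s t, ‖Ex (Real.pi / 2) s t‖ = 1 := fun s t => Ex_norm _ _ _
  have hvv : ∀ s t, Ex (Real.pi / 2) s t * Ex (Real.pi / 2) s t = -1 := by
    intro s t
    have h5 := star_mul_one (hvn s t)
    have h6 : star (Ex (Real.pi / 2) s t) = -Ex (Real.pi / 2) s t := by
      exact neg_eq_iff_eq_neg.1 (hv s t)
    rw [h6] at h5
    rw [neg_mul] at h5
    exact (neg_eq_iff_eq_neg.1 h5)
  have hcm : ∀ s t, q (Ex (Real.pi / 2) s t) * Ex (Real.pi / 2) s t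
      = Ex (Real.pi / 2) s t * q (Ex (Real.pi / 2) s t) := by
    intro s t
    have h5 := hconj _ (hvn s t)
    rw [hv] at h5
    calc q (Ex (Real.pi / 2) s t) * Ex (Real.pi / 2) s t
        = Ex (Real.pi / 2) s t * q (Ex (Real.pi / 2) s t) * star (Ex (Real.pi / 2) s t)
          * Ex (Real.pi / 2) s t := by rw [← h5]
      _ = _ := by rw [mul_assoc _ (star _), star_mul_one (hvn s t), mul_one]
  have hsq : ∀ s t, (q (Ex (Real.pi / 2) s t) - Ex (Real.pi / 2) s t)
      * (q (Ex (Real.pi / 2) s t) + Ex (Real.pi / 2) s t) = 0 := by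
    intro s t
    rw [sub_mul, mul_add, mul_add, hcm, h2 _ (Ex_mem _ _ _), hvv]
    abel
  have hor : ∀ s t, q (Ex (Real.pi / 2) s t) = Ex (Real.pi / 2) s t
      ∨ q (Ex (Real.pi / 2) s t) = -Ex (Real.pi / 2) s t := by
    intro s t
    rcases mul_eq_zero.1 (hsq s t) with h | h
    · exact Or.inl (sub_eq_zero.1 h)
    · exact Or.inr (eq_neg_of_add_eq_zero_left h)
  have hval : ∀ s t, q (Ex (Real.pi / 2) s t)
      = (-(q (Ex (Real.pi / 2) s t) * Ex (Real.pi / 2) s t).re) • Ex (Real.pi / 2) s t := by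
    intro s t
    rcases hor s t with h | h
    · rw [h, hvv]
      simp
    · rw [h, neg_mul, hvv]
      simp
  have hre : ∀ s t, (q (Ex (Real.pi / 2) s t) * Ex (Real.pi / 2) s t).re = -1
      ∨ (q (Ex (Real.pi / 2) s t) * Ex (Real.pi / 2) s t).re = 1 := by
    intro s t
    rcases hor s t with h | h
    · left
      rw [h, hvv]
      simp
    · right
      rw [h, neg_mul, hvv]
      simp
  have hEc : Continuous fun z : ℝ × ℝ => Ex (Real.pi / 2) z.1 z.2 :=
    Ex_continuous continuous_const continuous_fst continuous_snd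
  have hfc : Continuous fun z : ℝ × ℝ =>
      (q (Ex (Real.pi / 2) z.1 z.2) * Ex (Real.pi / 2) z.1 z.2).re := by
    refine Quaternion.continuous_re.comp (Continuous.mul ?_ hEc)
    exact h1.comp_continuous hEc (fun z => Ex_mem _ _ _)
  have hconst := const_of_sep _ hfc (fun x y hxy => by
    rcases hre x.1 x.2 with h | h <;> rcases hre y.1 y.2 with h' | h' <;>
      rw [h, h'] at hxy ⊢ <;> norm_num at hxy)
  intro s t
  rw [← Ex_half, hval, hval s t, hconst (Real.pi - s, t + Real.pi) (s, t), Ex_half]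
  simp

end H72R
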