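import Mathlib
import Pool.Agent.Lib.H72R.E

/-! # H72R, part F: flows on the 3-sphere which are reversed by an involution -/

set_option autoImplicit false

open scoped Quaternion

noncomputable section

namespace H72R

/-- The unit sphere of Euclidean 4-space. -/
abbrev S3 : Type := Metric.sphere (0 : EuclideanSpace ℝ (Fin 4)) 1

/-- The quaternion with the coordinates of a point. -/
def emb (x : S3) : ℍ[ℝ] := Quaternion.linearIsometryEquivTuple.symm x.1

theorem emb_continuous : Continuous emb :=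
  Quaternion.linearIsometryEquivTuple.symm.continuous.comp continuous_subtype_val

theorem emb_norm (x : S3) : ‖emb x‖ = 1 := by
  unfold emb
  rw [LinearIsometryEquiv.norm_map]
  exact mem_sphere_zero_iff_norm.1 x.2

theorem emb_inj {x y : S3} (h : emb x = emb y) : x = y :=
  Subtype.ext (Quaternion.linearIsometryEquivTuple.symm.injective h)

theorem emb_re (x : S3) : (emb x).re = x.1 0 := rfl
theorem emb_i (x : S3) : (emb x).imI = x.1 1 := rfl
theorem emb_j (x : S3) : (emb x).imJ = x.1 2 := rfl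
theorem emb_k (x : S3) : (emb x).imK = x.1 3 := rfl

theorem prj_mem {q : ℍ[ℝ]} (hq : ‖q‖ = 1) :
    Quaternion.linearIsometryEquivTuple q ∈ Metric.sphere (0 : EuclideanSpace ℝ (Fin 4)) 1 := by
  rw [mem_sphere_zero_iff_norm, LinearIsometryEquiv.norm_map]
  exact hq

/-- The point of the sphere with the coordinates of a unit quaternion. -/
def prj (q : ℍ[ℝ]) : S3 :=
  if hq : ‖q‖ = 1 then ⟨Quaternion.linearIsometryEquivTuple q, prj_mem hq⟩
  else ⟨Quaternion.linearIsometryEquivTuple 1, prj_mem (by simp)⟩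

theorem emb_prj {q : ℍ[ℝ]} (hq : ‖q‖ = 1) : emb (prj q) = q := by
  unfold emb prj
  rw [dif_pos hq]
  exact LinearIsometryEquiv.symm_apply_apply _ _

theorem prj_emb (x : S3) : prj (emb x) = x := emb_inj (emb_prj (emb_norm x))

theorem prj_continuousOn : ContinuousOn prj (Metric.sphere 0 1) := by
  rw [continuousOn_iff_continuous_domRestrict]
  have h : (Metric.sphere (0 : ℍ[ℝ]) 1).domRestrict prj = fun q =>
      ⟨Quaternion.linearIsometryEquivTuple q.1, prj_mem (mem_sphere_zero_iff_norm.1 q.2)⟩ := by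
    funext q
    have hq := mem_sphere_zero_iff_norm.1 q.2
    rw [Set.domRestrict_apply]
    unfold prj
    rw [dif_pos hq]
  rw [h]
  exact (Quaternion.linearIsometryEquivTuple.continuous.comp continuous_subtype_val).subtype_mk _

/-- The linear model of the involution. -/
def Rq (a b : ℝ) (q : ℍ[ℝ]) : ℍ[ℝ] := ⟨a * q.re, b * q.imI, b * q.imJ, b * q.imK⟩

theorem Rq_Rq {a b : ℝ} (ha : a = 1 ∨ a = -1) (hb : b = 1 ∨ b = -1) (q : ℍ[ℝ]) :
    Rq a b (Rq a b q) = q := by
  rcases ha with rfl | rfl <;> rcases hb with rfl | rfl <;> ext <;> simp [Rq]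

/-- A map of the sphere near the identity. -/
theorem near_fix {F : ℍ[ℝ] → ℍ[ℝ]} (hF : Near F) {a b : ℝ} (ha : a = 1 ∨ a = -1)
    (hb : b = 1 ∨ b = -1) : ∃ x, ‖x‖ = 1 ∧ F x = Rq a b (F (Rq a b x)) := by
  rcases ha with rfl | rfl <;> rcases hb with rfl | rfl
  · refine ⟨1, by simp, ?_⟩
    have h : ∀ q : ℍ[ℝ], Rq 1 1 q = q := by
      intro q
      ext <;> simp [Rq]
    rw [h, h]
  · obtain ⟨x, hx, h⟩ := near_star hF
    refine ⟨x, hx, ?_⟩
    have h' : ∀ q : ℍ[ℝ], Rq 1 (-1) q = star q := by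
      intro q
      ext <;> simp [Rq]
    rw [h', h']
    exact h
  · obtain ⟨x, hx, h⟩ := near_neg_star hF
    refine ⟨x, hx, ?_⟩
    have h' : ∀ q : ℍ[ℝ], Rq (-1) 1 q = -star q := by
      intro q
      ext <;> simp [Rq]
    rw [h', h']
    exact h
  · obtain ⟨x, hx, h⟩ := near_neg hF
    refine ⟨x, hx, ?_⟩
    have h' : ∀ q : ℍ[ℝ], Rq (-1) (-1) q = -q := by
      intro q
      ext <;> simp [Rq]
    rw [h', h']
    exact h

/-- The data of the theorem. -/
structure Rev (h : S3 ≃ₜ S3) (a b : ℝ) (R : S3 → S3) : Prop where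
  ha : a = 1 ∨ a = -1
  hb : b = 1 ∨ b = -1
  hR : ∀ x, (h.symm (R (h x))).1 0 = a * x.1 0 ∧
    ∀ i : Fin 4, i ≠ 0 → (h.symm (R (h x))).1 i = b * x.1 i

theorem Rev.eq {h : S3 ≃ₜ S3} {a b : ℝ} {R : S3 → S3} (H : Rev h a b R) (x : S3) :
    emb (h.symm (R (h x))) = Rq a b (emb x) := by
  obtain ⟨h1, h2⟩ := H.hR x
  ext
  · rw [emb_re, h1]
    rfl
  · rw [emb_i, h2 1 (by decide)]
    rfl
  · rw [emb_j, h2 2 (by decide)]
    rfl
  · rw [emb_k, h2 3 (by decide)]
    rfl

theorem Rev.invol {h : S3 ≃ₜ S3} {a b : ℝ} {R : S3 → S3} (H : Rev h a b R) (y : S3) :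
    R (R y) = y := by
  have h1 := H.eq (h.symm (R (h (h.symm y))))
  rw [Homeomorph.apply_symm_apply, Homeomorph.apply_symm_apply] at h1
  have h2 := H.eq (h.symm y)
  rw [Homeomorph.apply_symm_apply] at h2
  rw [h2, Rq_Rq H.ha H.hb] at h1
  exact h.symm.injective (emb_inj h1)

theorem small_time (φ : Flow ℝ S3) (h : S3 ≃ₜ S3) :
    ∃ ε > 0, ∀ T : ℝ, |T| < ε → ∀ x, ‖emb (h.symm (φ T (h x))) - emb x‖ < 1 := by
  have hc : Continuous fun z : ℝ × S3 => ‖emb (h.symm (φ z.1 (h z.2))) - emb z.2‖ := by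
    have h1 : Continuous fun z : ℝ × S3 => φ z.1 (h z.2) :=
      φ.continuous continuous_fst (h.continuous.comp continuous_snd)
    exact ((emb_continuous.comp (h.symm.continuous.comp h1)).sub
      (emb_continuous.comp continuous_snd)).norm
  have key := (isCompact_univ (X := S3)).eventually_forall_of_forall_eventually (x₀ := (0 : ℝ))
    (P := fun T x => ‖emb (h.symm (φ T (h x))) - emb x‖ < 1) (by
      intro y _
      have h2 : ‖emb (h.symm (φ (0 : ℝ) (h y))) - emb y‖ < 1 := by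
        rw [Flow.map_zero_apply, Homeomorph.symm_apply_apply, sub_self, norm_zero]
        exact one_pos
      exact (hc.tendsto ((0 : ℝ), y)).eventually (gt_mem_nhds h2))
  rw [Metric.eventually_nhds_iff] at key
  obtain ⟨ε, hε, hk⟩ := key
  refine ⟨ε, hε, fun T hT x => hk ?_ x trivial⟩
  rw [Real.dist_eq, sub_zero]
  exact hT

theorem exists_meet (φ : Flow ℝ S3) {h : S3 ≃ₜ S3} {a b : ℝ} {R : S3 → S3} (H : Rev h a b R) :
    ∃ ε > 0, ∀ T : ℝ, 0 < T → T < ε → ∃ y, φ T y = R (φ T (R y)) := by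
  obtain ⟨ε, hε, hs⟩ := small_time φ h
  refine ⟨ε, hε, fun T hT0 hT => ?_⟩
  have hT' : |T| < ε := by rwa [abs_of_pos hT0]
  set F : ℍ[ℝ] → ℍ[ℝ] := fun q => emb (h.symm (φ T (h (prj q)))) with hFdef
  have hF : Near F := by
    refine ⟨?_, fun x _ => emb_norm _, fun x hx => ?_⟩
    · have h1 : Continuous fun x : S3 => emb (h.symm (φ T (h x))) :=
        emb_continuous.comp (h.symm.continuous.comp (φ.continuous continuous_const h.continuous))
      exact h1.comp_continuousOn prj_continuousOn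
    · have := hs T hT' (prj x)
      rwa [emb_prj hx] at this
  obtain ⟨x, hx, hxx⟩ := near_fix hF H.ha H.hb
  refine ⟨h (prj x), ?_⟩
  have h1 : h.symm (R (h (prj x))) = prj (Rq a b x) := by
    have h2 := H.eq (prj x)
    rw [emb_prj hx] at h2
    rw [← h2, prj_emb]
  have h3 : h (prj (Rq a b x)) = R (h (prj x)) := by
    rw [← h1, Homeomorph.apply_symm_apply]
  have h4 : F (Rq a b x) = emb (h.symm (φ T (R (h (prj x))))) := by
    simp only [hFdef]
    rw [h3]
  have h5 := H.eq (h.symm (φ T (R (h (prj x)))))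
  rw [Homeomorph.apply_symm_apply, ← h4, ← hxx] at h5
  exact (h.symm.injective (emb_inj h5)).symm

/-- Orbit reversal: a periodic (or rest) point. -/
theorem periodic_point (φ : Flow ℝ S3) {h : S3 ≃ₜ S3} {a b : ℝ} {R : S3 → S3} (H : Rev h a b R)
    (hrev : ∀ x, ∀ t > (0 : ℝ), ∃ s > 0, R (φ t x) = φ (-s) (R x)) :
    ∃ x, ∃ t > 0, φ t x = x := by
  obtain ⟨ε, hε, hm⟩ := exists_meet φ H
  obtain ⟨y, hy⟩ := hm (ε / 2) (by positivity) (by linarith)
  obtain ⟨s, hs, hs1⟩ := hrev (R y) (ε / 2) (by positivity)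
  rw [← hy, H.invol] at hs1
  refine ⟨y, s + ε / 2, by positivity, ?_⟩
  rw [Flow.map_add, hs1, ← Flow.map_add, add_neg_cancel, Flow.map_zero_apply]

/-- Time reversal: points of all small periods. -/
theorem small_periods (φ : Flow ℝ S3) {h : S3 ≃ₜ S3} {a b : ℝ} {R : S3 → S3} (H : Rev h a b R)
    (hrev : ∀ x (t : ℝ), R (φ t x) = φ (-t) (R x)) :
    ∃ ε > 0, ∀ T : ℝ, 0 < T → T < ε → ∃ y, φ T y = y := by
  obtain ⟨ε, hε, hm⟩ := exists_meet φ H
  refine ⟨ε, hε, fun T hT0 hT => ?_⟩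
  obtain ⟨y, hy⟩ := hm (T / 2) (by positivity) (by linarith)
  rw [hrev, H.invol] at hy
  refine ⟨y, ?_⟩
  have h1 : T = T / 2 + T / 2 := by ring
  rw [h1, Flow.map_add, hy, ← Flow.map_add, add_neg_cancel, Flow.map_zero_apply]

end H72R
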