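import Mathlib

/-!
Two lemmas on flows: a periodic orbit is not the whole 3-sphere, and small periods everywhere
give a rest point.
-/

open Set Topology

namespace H72R

section Stab

variable {X : Type*} [TopologicalSpace X]

/-- The group of all times that fix `x`. -/
private def stab (φ : Flow ℝ X) (x : X) : AddSubgroup ℝ where
  carrier := {t | φ t x = x}
  zero_mem' := φ.map_zero_apply x
  add_mem' := by
    intro s t hs ht
    simp only [mem_setOf_eq] at *
    rw [φ.map_add, ht, hs]
  neg_mem' := by
    intro t ht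
    simp only [mem_setOf_eq] at *
    calc φ (-t) x = φ (-t) (φ t x) := by rw [ht]
      _ = x := by rw [← φ.map_add, neg_add_cancel, φ.map_zero_apply]

private lemma mem_stab {φ : Flow ℝ X} {x : X} {t : ℝ} : t ∈ stab φ x ↔ φ t x = x := Iff.rfl

private lemma stab_closed [T2Space X] (φ : Flow ℝ X) (x : X) :
    IsClosed (stab φ x : Set ℝ) := by
  have h : Continuous fun t : ℝ => φ t x := φ.continuous continuous_id continuous_const
  exact isClosed_eq h continuous_const

private lemma eq_iff (φ : Flow ℝ X) (x : X) (s t : ℝ) : φ s x = φ t x ↔ s - t ∈ stab φ x := by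
  rw [mem_stab]
  constructor
  · intro h
    calc φ (s - t) x = φ (-t + s) x := by ring_nf
      _ = φ (-t) (φ s x) := φ.map_add _ _ _
      _ = φ (-t) (φ t x) := by rw [h]
      _ = x := by rw [← φ.map_add, neg_add_cancel, φ.map_zero_apply]
  · intro h
    calc φ s x = φ (t + (s - t)) x := by ring_nf
      _ = φ t (φ (s - t) x) := φ.map_add _ _ _
      _ = φ t x := by rw [h]

private lemma all_of_dense [T2Space X] (φ : Flow ℝ X) (x : X)
    (h : Dense (stab φ x : Set ℝ)) (t : ℝ) : φ t x = x := by
  have h1 : (stab φ x : Set ℝ) = univ := by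
    rw [← (stab_closed φ x).closure_eq]
    exact h.closure_eq
  have h2 : t ∈ (stab φ x : Set ℝ) := by
    rw [h1]
    exact mem_univ _
  exact h2

/-- L2: small periods everywhere give a rest point. -/
theorem fixed_of_small_periods {X : Type*} [TopologicalSpace X] [T2Space X] [CompactSpace X]
    (φ : Flow ℝ X) (ε : ℝ) (hε : 0 < ε) (h : ∀ T, 0 < T → T < ε → ∃ x, φ T x = x) :
    ∃ x, ∀ t, φ t x = x := by
  set K : ℕ → Set X := fun n => {x | φ (ε / 2 / 2 ^ n) x = x} with hK
  have hc : ∀ n, IsClosed (K n) := fun n =>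
    isClosed_eq (φ.continuous continuous_const continuous_id) continuous_id
  have hne : ∀ n, (K n).Nonempty := by
    intro n
    obtain ⟨x, hx⟩ := h (ε / 2 / 2 ^ n) (by positivity) (by
      have h1 : ε / 2 / 2 ^ n ≤ ε / 2 := div_le_self (by positivity) (one_le_pow₀ (by norm_num))
      linarith)
    exact ⟨x, hx⟩
  have hd : ∀ n, K (n + 1) ⊆ K n := by
    intro n x hx
    have h2 : ε / 2 / 2 ^ n = ε / 2 / 2 ^ (n + 1) + ε / 2 / 2 ^ (n + 1) := by
      rw [pow_succ]
      field_simp
      ring
    have hx' : φ (ε / 2 / 2 ^ (n + 1)) x = x := hx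
    show φ (ε / 2 / 2 ^ n) x = x
    rw [h2, φ.map_add, hx', hx']
  obtain ⟨x, hx⟩ := IsCompact.nonempty_iInter_of_sequence_nonempty_isCompact_isClosed K hd hne
    (hc 0).isCompact hc
  rw [mem_iInter] at hx
  refine ⟨x, all_of_dense φ x ?_⟩
  apply AddSubgroup.dense_of_not_isolated_zero
  intro δ hδ
  obtain ⟨n, hn⟩ := pow_unbounded_of_one_lt (ε / 2 / δ) (one_lt_two (α := ℝ))
  refine ⟨ε / 2 / 2 ^ n, hx n, by positivity, ?_⟩
  rw [div_lt_iff₀ hδ] at hn
  rw [div_lt_iff₀ (by positivity)]
  linarith

end Stab

private lemma compl_pair_preconnected (v w : Metric.sphere (0 : EuclideanSpace ℝ (Fin 4)) 1)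
    (hvw : v ≠ w) :
    IsPreconnected ({v, w}ᶜ : Set (Metric.sphere (0 : EuclideanSpace ℝ (Fin 4)) 1)) := by
  haveI : Fact (Module.finrank ℝ (EuclideanSpace ℝ (Fin 4)) = 3 + 1) := ⟨by simp⟩
  have hs := stereographic'_source (n := 3) v
  have ht := stereographic'_target (n := 3) v
  set e := stereographic' 3 v with he
  have hw : w ∈ e.source := by
    rw [hs]
    exact fun h => hvw h.symm
  have hU : ({v, w}ᶜ : Set (Metric.sphere (0 : EuclideanSpace ℝ (Fin 4)) 1)) =
      e.symm '' {e w}ᶜ := by
    ext u
    constructor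
    · intro hu
      have hu1 : u ≠ v := fun h => hu (Or.inl h)
      have hu2 : u ≠ w := fun h => hu (Or.inr h)
      have hus : u ∈ e.source := by
        rw [hs]
        exact hu1
      exact ⟨e u, fun h => hu2 (e.injOn hus hw h), e.left_inv hus⟩
    · rintro ⟨y, hy, rfl⟩
      have hyt : y ∈ e.target := by
        rw [ht]
        exact mem_univ _
      have h1 : e.symm y ∈ e.source := e.map_target hyt
      have h2 : e.symm y ≠ v := by
        rw [hs] at h1
        exact h1
      intro hu
      rcases hu with hu | hu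
      · exact h2 hu
      · apply hy
        show y = e w
        rw [← hu]
        exact (e.right_inv hyt).symm
  rw [hU]
  refine IsPreconnected.image ?_ _ (e.continuousOn_symm.mono ?_)
  · refine (isConnected_compl_singleton_of_one_lt_rank ?_ (e w)).isPreconnected
    rw [← Module.finrank_eq_rank, finrank_euclideanSpace_fin]
    norm_num
  · rw [ht]
    exact subset_univ _

/-- L1: a periodic orbit is not the whole 3-sphere. -/
theorem orbit_ne_univ (φ : Flow ℝ (Metric.sphere (0 : EuclideanSpace ℝ (Fin 4)) 1))
    (x : Metric.sphere (0 : EuclideanSpace ℝ (Fin 4)) 1) (P : ℝ) (hP : 0 < P)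
    (hx : φ P x = x) :
    (∃ A : Set (Metric.sphere (0 : EuclideanSpace ℝ (Fin 4)) 1),
      IsClosed A ∧ A.Nonempty ∧ IsInvariant φ A ∧ A ≠ Set.univ) := by
  set f : ℝ → Metric.sphere (0 : EuclideanSpace ℝ (Fin 4)) 1 := fun t => φ t x with hf
  have fc : Continuous f := φ.continuous continuous_id continuous_const
  have fper : ∀ b : ℝ, b ∈ stab φ x → Function.Periodic f b := by
    intro b hb t
    show φ (t + b) x = φ t x
    rw [φ.map_add, mem_stab.mp hb]
  have hPs : P ∈ stab φ x := hx
  refine ⟨range f, ?_, ⟨f 0, 0, rfl⟩, ?_, ?_⟩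
  · rw [← (fper P hPs).image_Icc hP 0]
    exact (isCompact_Icc.image fc).isClosed
  · rintro t _ ⟨s, rfl⟩
    refine ⟨t + s, ?_⟩
    show φ (t + s) x = φ t (φ s x)
    exact φ.map_add _ _ _
  · intro huniv
    rcases AddSubgroup.dense_or_cyclic (stab φ x) with hd | ⟨a0, ha0⟩
    · -- the orbit is one point
      have h1 := all_of_dense φ x hd
      have h2 : (-x) ∈ range f := by
        rw [huniv]
        exact mem_univ _
      obtain ⟨t, ht⟩ := h2
      have h3 : x = -x := by
        rw [← ht]
        exact (h1 t).symm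
      have h4 : (x : EuclideanSpace ℝ (Fin 4)) = -(x : EuclideanSpace ℝ (Fin 4)) := by
        exact congrArg Subtype.val h3
      have h5 : (x : EuclideanSpace ℝ (Fin 4)) = 0 := by
        have h6 : (2 : ℝ) • (x : EuclideanSpace ℝ (Fin 4)) = 0 := by
          rw [two_smul]
          nth_rewrite 2 [h4]
          exact add_neg_cancel _
        exact (smul_eq_zero.mp h6).resolve_left (by norm_num)
      have h7 : ‖(x : EuclideanSpace ℝ (Fin 4))‖ = 1 := by
        simp
      rw [h5, norm_zero] at h7
      exact zero_ne_one h7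
    · -- cyclic case
      have hmem0 : ∀ t, t ∈ stab φ x ↔ ∃ n : ℤ, n • a0 = t := by
        intro t
        rw [ha0]
        exact AddSubgroup.mem_closure_singleton
      obtain ⟨a, ha, hmem⟩ : ∃ a : ℝ, 0 < a ∧ ∀ t, t ∈ stab φ x ↔ ∃ n : ℤ, (n : ℝ) * a = t := by
        have ha0ne : a0 ≠ 0 := by
          rintro rfl
          obtain ⟨n, hn⟩ := (hmem0 P).mp hPs
          simp at hn
          linarith
        rcases lt_or_gt_of_ne ha0ne with hneg | hpos
        · refine ⟨-a0, by linarith, fun t => ?_⟩
          rw [hmem0]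
          constructor
          · rintro ⟨n, hn⟩
            refine ⟨-n, ?_⟩
            rw [← hn]
            simp
          · rintro ⟨n, hn⟩
            refine ⟨-n, ?_⟩
            rw [← hn]
            simp
        · refine ⟨a0, hpos, fun t => ?_⟩
          rw [hmem0]
          constructor
          · rintro ⟨n, hn⟩
            exact ⟨n, by rw [← hn]; simp⟩
          · rintro ⟨n, hn⟩
            exact ⟨n, by rw [← hn]; simp⟩
      have hfe : ∀ s t, f s = f t ↔ ∃ n : ℤ, (n : ℝ) * a = s - t := by
        intro s t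
        rw [← hmem]
        exact eq_iff φ x s t
      have has : a ∈ stab φ x := (hmem a).mpr ⟨1, by simp⟩
      have hint : ∀ q : ℝ, 0 < q → q < a → ¬ ∃ n : ℤ, (n : ℝ) * a = q := by
        rintro q hq0 hqa ⟨n, hn⟩
        have h1 : (0 : ℝ) < n := by
          by_contra hcon
          push Not at hcon
          have : (n : ℝ) * a ≤ 0 := mul_nonpos_of_nonpos_of_nonneg hcon ha.le
          linarith
        have h2 : (1 : ℝ) ≤ n := by
          have : (0 : ℤ) < n := by exact_mod_cast h1
          have : (1 : ℤ) ≤ n := this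
          exact_mod_cast this
        nlinarith
      have hne1 : f 0 ≠ f (a / 2) := by
        intro h
        exact hint (a / 2) (by linarith) (by linarith) (by
          obtain ⟨n, hn⟩ := (hfe (a / 2) 0).mp h.symm
          exact ⟨n, by linarith⟩)
      have hU := compl_pair_preconnected (f 0) (f (a / 2)) hne1
      rw [isPreconnected_closed_iff] at hU
      have hC1 : IsClosed (f '' Icc 0 (a / 2)) := (isCompact_Icc.image fc).isClosed
      have hC2 : IsClosed (f '' Icc (a / 2) a) := (isCompact_Icc.image fc).isClosed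
      have hcov : (univ : Set (Metric.sphere (0 : EuclideanSpace ℝ (Fin 4)) 1)) ⊆
          f '' Icc 0 (a / 2) ∪ f '' Icc (a / 2) a := by
        rw [← image_union, Icc_union_Icc_eq_Icc (by linarith) (by linarith), ← huniv,
          ← (fper a has).image_Icc ha 0, zero_add]
      have hq1 : f (a / 4) ∈ ({f 0, f (a / 2)}ᶜ : Set _) := by
        intro h
        rcases h with h | h
        · exact hint (a / 4) (by linarith) (by linarith) (by
            obtain ⟨n, hn⟩ := (hfe (a / 4) 0).mp h
            exact ⟨n, by linarith⟩)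
        · exact hint (a / 4) (by linarith) (by linarith) (by
            obtain ⟨n, hn⟩ := (hfe (a / 2) (a / 4)).mp (mem_singleton_iff.mp h).symm
            exact ⟨n, by linarith⟩)
      have hq2 : f (3 * a / 4) ∈ ({f 0, f (a / 2)}ᶜ : Set _) := by
        intro h
        rcases h with h | h
        · exact hint (3 * a / 4) (by linarith) (by linarith) (by
            obtain ⟨n, hn⟩ := (hfe (3 * a / 4) 0).mp h
            exact ⟨n, by linarith⟩)
        · exact hint (a / 4) (by linarith) (by linarith) (by
            obtain ⟨n, hn⟩ := (hfe (3 * a / 4) (a / 2)).mp (mem_singleton_iff.mp h)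
            exact ⟨n, by linarith⟩)
      obtain ⟨y, hyU, ⟨s, hs, hsy⟩, ⟨t, ht, hty⟩⟩ := hU _ _ hC1 hC2
        ((subset_univ _).trans hcov)
        ⟨f (a / 4), hq1, a / 4, ⟨by linarith, by linarith⟩, rfl⟩
        ⟨f (3 * a / 4), hq2, 3 * a / 4, ⟨by linarith, by linarith⟩, rfl⟩
      obtain ⟨n, hn⟩ := (hfe t s).mp (hty.trans hsy.symm)
      obtain ⟨hs0, hs1⟩ := hs
      obtain ⟨ht0, ht1⟩ := ht
      by_cases hz : t - s = 0
      · have : s = a / 2 := by linarith
        apply hyU
        right
        rw [← hsy, this]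
        rfl
      · by_cases hza : t - s = a
        · have : s = 0 := by linarith
          apply hyU
          left
          rw [← hsy, this]
        · have h1 : 0 < t - s := lt_of_le_of_ne (by linarith) (Ne.symm hz)
          have h2 : t - s < a := lt_of_le_of_ne (by linarith) hza
          exact hint (t - s) h1 h2 ⟨n, hn⟩

end H72R
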