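import Mathlib
import Pool.Agent.Lib.H72R.F
import Pool.Agent.Lib.H72R.G

/-! # H72R, part I: involutions and isometries of the 3-sphere -/

set_option autoImplicit false

noncomputable section

namespace H72R

/-- Euclidean 4-space. -/
abbrev E4 : Type := EuclideanSpace ℝ (Fin 4)

/-- The restriction of a linear isometry to the unit sphere. -/
def restr (u : E4 ≃ₗᵢ[ℝ] E4) : S3 ≃ₜ S3 where
  toFun x := ⟨u x.1, by
    rw [mem_sphere_zero_iff_norm, LinearIsometryEquiv.norm_map]
    exact mem_sphere_zero_iff_norm.1 x.2⟩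
  invFun x := ⟨u.symm x.1, by
    rw [mem_sphere_zero_iff_norm, LinearIsometryEquiv.norm_map]
    exact mem_sphere_zero_iff_norm.1 x.2⟩
  left_inv x := Subtype.ext (u.symm_apply_apply x.1)
  right_inv x := Subtype.ext (u.apply_symm_apply x.1)
  continuous_toFun := (u.continuous.comp continuous_subtype_val).subtype_mk _
  continuous_invFun := (u.symm.continuous.comp continuous_subtype_val).subtype_mk _

/-- The linear map of a linear isometry. -/
abbrev lin (g : E4 ≃ₗᵢ[ℝ] E4) : E4 →ₗ[ℝ] E4 := g.toLinearEquiv.toLinearMap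

theorem diag (g : E4 ≃ₗᵢ[ℝ] E4) (hg : ∀ x, g (g x) = x) :
    ∃ (b : OrthonormalBasis (Fin 4) ℝ E4) (l : Fin 4 → ℝ), (∀ i, l i = 1 ∨ l i = -1) ∧
      (∀ i, g (b i) = l i • b i) ∧ LinearMap.trace ℝ E4 (lin g) = ∑ i, l i ∧
      LinearMap.det (lin g) = ∏ i, l i := by
  have hs : (lin g).IsSymmetric := by
    intro x y
    change inner ℝ (g x) y = inner ℝ x (g y)
    calc inner ℝ (g x) y = inner ℝ (g x) (g (g y)) := by rw [hg]
      _ = inner ℝ x (g y) := g.inner_map_map _ _
  have hn : Module.finrank ℝ E4 = 4 := by simp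
  have hb : ∀ i, g (hs.eigenvectorBasis hn i) = hs.eigenvalues hn i • hs.eigenvectorBasis hn i :=
    fun i => hs.apply_eigenvectorBasis hn i
  refine ⟨hs.eigenvectorBasis hn, hs.eigenvalues hn, fun i => ?_, hb, ?_, ?_⟩
  · have h1 := hg (hs.eigenvectorBasis hn i)
    rw [hb, LinearIsometryEquiv.map_smul, hb, smul_smul] at h1
    have h2 : hs.eigenvectorBasis hn i ≠ 0 := (hs.eigenvectorBasis hn).orthonormal.ne_zero i
    have h3 : (hs.eigenvalues hn i * hs.eigenvalues hn i - 1) • hs.eigenvectorBasis hn i = 0 := by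
      rw [sub_smul, one_smul, h1, sub_self]
    rcases smul_eq_zero.1 h3 with h | h
    · have : (hs.eigenvalues hn i - 1) * (hs.eigenvalues hn i + 1) = 0 := by linarith
      rcases mul_eq_zero.1 this with h | h
      · left
        linarith
      · right
        linarith
    · exact absurd h h2
  · exact hs.trace_eq_sum_eigenvalues hn
  · exact hs.det_eq_prod_eigenvalues hn

/-- Four signs with nonzero sum: all but one are equal. -/
theorem signs (l : Fin 4 → ℝ) (h : ∀ i, l i = 1 ∨ l i = -1) (hs : ∑ i, l i ≠ 0) :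
    ∃ (i0 : Fin 4) (b : ℝ), (b = 1 ∨ b = -1) ∧ ∀ i, i ≠ i0 → l i = b := by
  rw [Fin.sum_univ_four] at hs
  rcases h 0 with h0 | h0 <;> rcases h 1 with h1 | h1 <;> rcases h 2 with h2 | h2 <;>
    rcases h 3 with h3 | h3
  all_goals
    first
    | (refine ⟨0, 1, Or.inl rfl, fun i hi => ?_⟩; fin_cases i <;> first | exact absurd rfl hi | assumption)
    | (refine ⟨1, 1, Or.inl rfl, fun i hi => ?_⟩; fin_cases i <;> first | exact absurd rfl hi | assumption)
    | (refine ⟨2, 1, Or.inl rfl, fun i hi => ?_⟩; fin_cases i <;> first | exact absurd rfl hi | assumption)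
    | (refine ⟨3, 1, Or.inl rfl, fun i hi => ?_⟩; fin_cases i <;> first | exact absurd rfl hi | assumption)
    | (refine ⟨0, -1, Or.inr rfl, fun i hi => ?_⟩; fin_cases i <;> first | exact absurd rfl hi | assumption)
    | (refine ⟨1, -1, Or.inr rfl, fun i hi => ?_⟩; fin_cases i <;> first | exact absurd rfl hi | assumption)
    | (refine ⟨2, -1, Or.inr rfl, fun i hi => ?_⟩; fin_cases i <;> first | exact absurd rfl hi | assumption)
    | (refine ⟨3, -1, Or.inr rfl, fun i hi => ?_⟩; fin_cases i <;> first | exact absurd rfl hi | assumption)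
    | (exfalso; apply hs; rw [h0, h1, h2, h3]; norm_num)

theorem model (g : E4 ≃ₗᵢ[ℝ] E4) (hg : ∀ x, g (g x) = x)
    (htr : LinearMap.trace ℝ E4 (lin g) ≠ 0) :
    ∃ (u : E4 ≃ₗᵢ[ℝ] E4) (a b : ℝ), (a = 1 ∨ a = -1) ∧ (b = 1 ∨ b = -1) ∧
      ∀ x : E4, (u.symm (g (u x))) 0 = a * x 0 ∧
        ∀ i : Fin 4, i ≠ 0 → (u.symm (g (u x))) i = b * x i := by
  obtain ⟨c, l, hl, hc, ht, _⟩ := diag g hg
  rw [ht] at htr
  obtain ⟨i0, b, hb, hi⟩ := signs l hl htr
  set c' := c.reindex (Equiv.swap i0 0) with hc'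
  have hval : ∀ (x : E4) (i : Fin 4), (c'.repr (g (c'.repr.symm x))) i
      = l (Equiv.swap i0 0 i) * x i := by
    intro x i
    rw [OrthonormalBasis.repr_apply_apply]
    have h1 : c' i = c (Equiv.swap i0 0 i) := by
      rw [hc', OrthonormalBasis.reindex_apply, Equiv.symm_swap]
    have h2 : inner ℝ (c' i) (g (c'.repr.symm x)) = inner ℝ (g (c' i)) (c'.repr.symm x) := by
      calc inner ℝ (c' i) (g (c'.repr.symm x)) = inner ℝ (g (g (c' i))) (g (c'.repr.symm x)) := by
            rw [hg]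
        _ = _ := g.inner_map_map _ _
    rw [h2, h1, hc, inner_smul_left, ← h1, ← OrthonormalBasis.repr_apply_apply,
      LinearIsometryEquiv.apply_symm_apply]
    simp
  refine ⟨c'.repr.symm, l i0, b, hl i0, hb, fun x => ⟨?_, fun i hi0 => ?_⟩⟩
  · have := hval x 0
    rw [Equiv.swap_apply_right] at this
    exact this
  · have := hval x i
    rw [hi _ (by
      intro h
      apply hi0
      have h2 := congrArg (Equiv.swap i0 0) h
      rwa [Equiv.swap_apply_self, Equiv.swap_apply_left] at h2)] at this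
    exact this

end H72R
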