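import Mathlib
import Pool.Agent.Lib.H72R.I

/-! # H72R, part J: minimal flows and isometries -/

set_option autoImplicit false

noncomputable section

namespace H72R

/-- A linear isometry of Euclidean 4-space with determinant not `1` fixes a unit vector. -/
theorem fixed_of_det (g : E4 ≃ₗᵢ[ℝ] E4) (hd : LinearMap.det (lin g) ≠ 1) :
    ∃ x : S3, g x.1 = x.1 := by
  set b := EuclideanSpace.basisFun (Fin 4) ℝ with hb
  set A := LinearMap.toMatrix b.toBasis b.toBasis (lin g) with hA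
  have hAd : A.det = LinearMap.det (lin g) := LinearMap.det_toMatrix _ _
  have hAij : ∀ i j, A i j = inner ℝ (b i) (g (b j)) := by
    intro i j
    rw [hA, LinearMap.toMatrix_apply, OrthonormalBasis.coe_toBasis,
      OrthonormalBasis.coe_toBasis_repr_apply, OrthonormalBasis.repr_apply_apply]
    rfl
  have hAA : A.transpose * A = 1 := by
    ext i j
    rw [Matrix.mul_apply]
    simp only [Matrix.transpose_apply, hAij]
    have h1 := b.sum_inner_mul_inner (g (b i)) (g (b j))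
    rw [LinearIsometryEquiv.inner_map_map] at h1
    have h2 : ∀ k, inner ℝ (b k) (g (b i)) = inner ℝ (g (b i)) (b k) := fun k =>
      real_inner_comm _ _
    simp only [h2]
    rw [h1, Matrix.one_apply]
    exact orthonormal_iff_ite.1 b.orthonormal i j
  have hAA' : A * A.transpose = 1 := mul_eq_one_comm.1 hAA
  have hd1 : A.det = -1 := by
    have h1 : A.det * A.det = 1 := by
      have := congrArg Matrix.det hAA
      rwa [Matrix.det_mul, Matrix.det_transpose, Matrix.det_one] at this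
    have h2 : (A.det - 1) * (A.det + 1) = 0 := by linarith
    rcases mul_eq_zero.1 h2 with h | h
    · exact absurd (by rw [← hAd]; linarith) hd
    · linarith
  have hd0 : (A - 1).det = 0 := by
    have h1 : A - 1 = A * (-(A - 1)).transpose := by
      rw [neg_sub, Matrix.transpose_sub, Matrix.transpose_one, mul_sub, mul_one, hAA']
    have h2 : (A - 1).det = -(A - 1).det := by
      calc (A - 1).det = (A * (-(A - 1)).transpose).det := by rw [← h1]
        _ = -(A - 1).det := by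
          rw [Matrix.det_mul, Matrix.det_transpose, Matrix.det_neg, hd1]
          simp
          ring
    linarith
  obtain ⟨v, hv, hv0⟩ := Matrix.exists_mulVec_eq_zero_iff.2 hd0
  set x : E4 := b.toBasis.equivFun.symm v with hx
  have hxv : ⇑(b.toBasis.repr x) = v := by
    have := b.toBasis.equivFun.apply_symm_apply v
    rwa [Module.Basis.equivFun_apply] at this
  have hgx : g x = x := by
    have h1 : A.mulVec (b.toBasis.repr x) = b.toBasis.repr (lin g x) :=
      LinearMap.toMatrix_mulVec_repr _ _ _ _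
    rw [hxv] at h1
    have h2 : A.mulVec v = v := by
      rw [Matrix.sub_mulVec, Matrix.one_mulVec, sub_eq_zero] at hv0
      exact hv0
    rw [h2] at h1
    have h3 : b.toBasis.repr (lin g x) = b.toBasis.repr x := by
      apply DFunLike.coe_injective
      rw [← h1, hxv]
    exact b.toBasis.repr.injective h3
  have hx0 : x ≠ 0 := by
    intro h
    apply hv
    rw [← hxv, h]
    simp
  refine ⟨⟨(‖x‖⁻¹ : ℝ) • x, ?_⟩, ?_⟩
  · rw [mem_sphere_zero_iff_norm, norm_smul, norm_inv, norm_norm]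
    exact inv_mul_cancel₀ (norm_ne_zero_iff.2 hx0)
  · change g ((‖x‖⁻¹ : ℝ) • x) = (‖x‖⁻¹ : ℝ) • x
    rw [LinearIsometryEquiv.map_smul, hgx]

/-- `R` is conjugate, by a homeomorphism of the sphere, to the linear isometry `g`. -/
def ConjIso (R : S3 → S3) (g : E4 ≃ₗᵢ[ℝ] E4) : Prop :=
  ∃ h : S3 ≃ₜ S3, ∀ x : S3, (h.symm (R (h x))).1 = g x.1

/-- Minimality: every nonempty closed invariant set is the whole sphere. -/
def MinimalFlow (φ : Flow ℝ S3) : Prop :=
  ∀ s : Set S3, IsClosed s → s.Nonempty → IsInvariant φ.toFun s → s = Set.univ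

/-- `R` commutes with the flow. -/
def Preserves (φ : Flow ℝ S3) (R : S3 → S3) : Prop := ∀ x (t : ℝ), R (φ t x) = φ t (R x)

/-- `R` reverses the time of the flow. -/
def ReversesTime (φ : Flow ℝ S3) (R : S3 → S3) : Prop := ∀ x (t : ℝ), R (φ t x) = φ (-t) (R x)

/-- `R` maps orbits to orbits and reverses their direction. -/
def ReversesOrbits (φ : Flow ℝ S3) (R : S3 → S3) : Prop :=
  ∀ x, ∀ t > (0 : ℝ), ∃ s > (0 : ℝ), R (φ t x) = φ (-s) (R x)

theorem ConjIso.pow {R : S3 → S3} {g : E4 ≃ₗᵢ[ℝ] E4} (H : ConjIso R g) (m : ℕ) :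
    ConjIso (R^[m]) (g ^ m) := by
  obtain ⟨h, hh⟩ := H
  refine ⟨h, ?_⟩
  induction m with
  | zero =>
    intro x
    simp
  | succ m ih =>
    intro x
    rw [Function.iterate_succ_apply]
    have h1 := ih (h.symm (R (h x)))
    rw [Homeomorph.apply_symm_apply] at h1
    rw [h1, hh, pow_succ]
    rfl

theorem ConjIso.cont {R : S3 → S3} {g : E4 ≃ₗᵢ[ℝ] E4} (H : ConjIso R g) : Continuous R := by
  obtain ⟨h, hh⟩ := H
  have h1 : R = fun y => h (restr g (h.symm y)) := by
    funext y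
    have h2 : restr g (h.symm y) = h.symm (R y) := by
      apply Subtype.ext
      have := hh (h.symm y)
      rw [Homeomorph.apply_symm_apply] at this
      exact this.symm
    rw [h2, Homeomorph.apply_symm_apply]
  rw [h1]
  exact h.continuous.comp ((restr g).continuous.comp h.symm.continuous)

theorem ConjIso.rev {R : S3 → S3} {g : E4 ≃ₗᵢ[ℝ] E4} (H : ConjIso R g) (hg : g ^ 2 = 1)
    (htr : LinearMap.trace ℝ E4 (lin g) ≠ 0) : ∃ (h : S3 ≃ₜ S3) (a b : ℝ), Rev h a b R := by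
  obtain ⟨h, hh⟩ := H
  have hg' : ∀ x, g (g x) = x := by
    intro x
    have := congrArg (fun k : E4 ≃ₗᵢ[ℝ] E4 => k x) hg
    rw [pow_two] at this
    exact this
  obtain ⟨u, a, b, ha, hb, hu⟩ := model g hg' htr
  refine ⟨(restr u).trans h, a, b, ha, hb, fun x => ?_⟩
  have h1 : ((((restr u).trans h).symm (R (((restr u).trans h) x))).1 : E4)
      = u.symm (g (u x.1)) := by
    have h2 := hh (restr u x)
    have h3 : ((((restr u).trans h).symm (R (((restr u).trans h) x))).1 : E4)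
        = u.symm (h.symm (R (h (restr u x)))).1 := rfl
    rw [h3, h2]
    rfl
  rw [h1]
  exact hu x.1

theorem eq_one_of_fix {g : E4 ≃ₗᵢ[ℝ] E4} (h : ∀ x : S3, g x.1 = x.1) : g = 1 := by
  ext1 v
  change g v = v
  by_cases hv : v = 0
  · rw [hv, map_zero]
  · have hn : ‖v‖ ≠ 0 := norm_ne_zero_iff.2 hv
    have h1 := h ⟨(‖v‖⁻¹ : ℝ) • v, by
      rw [mem_sphere_zero_iff_norm, norm_smul, norm_inv, norm_norm]
      exact inv_mul_cancel₀ hn⟩
    have h2 : v = ‖v‖ • ((‖v‖⁻¹ : ℝ) • v) := by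
      rw [smul_smul, mul_inv_cancel₀ hn, one_smul]
    calc g v = g (‖v‖ • ((‖v‖⁻¹ : ℝ) • v)) := by rw [← h2]
      _ = ‖v‖ • ((‖v‖⁻¹ : ℝ) • v) := by rw [LinearIsometryEquiv.map_smul, h1]
      _ = v := h2.symm

/-- In a minimal flow a commuting isometry with a fixed point is trivial. -/
theorem eq_one_of_minimal {φ : Flow ℝ S3} (hm : MinimalFlow φ) {R : S3 → S3} {g : E4 ≃ₗᵢ[ℝ] E4}
    (H : ConjIso R g) (hc : Preserves φ R) (hx : ∃ x : S3, g x.1 = x.1) : g = 1 := by
  have hcont := H.cont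
  obtain ⟨h, hh⟩ := H
  have h1 : {y : S3 | R y = y} = Set.univ := by
    refine hm _ (isClosed_eq hcont continuous_id) ?_ ?_
    · obtain ⟨x, hx⟩ := hx
      refine ⟨h x, ?_⟩
      have h2 : h.symm (R (h x)) = x := Subtype.ext (by rw [hh, hx])
      have h3 : R (h x) = h x := by
        have h4 := congrArg h h2
        rwa [Homeomorph.apply_symm_apply] at h4
      exact h3
    · intro t y hy
      have hy' : R y = y := hy
      have h2 : R (φ t y) = φ t y := by
        rw [hc, hy']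
      exact h2
  apply eq_one_of_fix
  intro x
  rw [← hh]
  have h2 : h x ∈ {y : S3 | R y = y} := by
    rw [h1]
    trivial
  have h3 : R (h x) = h x := h2
  rw [h3, Homeomorph.symm_apply_apply]

theorem ReversesTime.sq {φ : Flow ℝ S3} {R : S3 → S3} (H : ReversesTime φ R) :
    Preserves φ (R^[2]) := by
  intro x t
  change R (R (φ t x)) = φ t (R (R x))
  rw [H, H, neg_neg]

theorem Preserves.iterate {φ : Flow ℝ S3} {R : S3 → S3} (H : Preserves φ R) (k : ℕ) :
    Preserves φ (R^[k]) := by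
  induction k with
  | zero =>
    intro x t
    rfl
  | succ k ih =>
    intro x t
    rw [Function.iterate_succ_apply, Function.iterate_succ_apply, H, ih]

theorem ReversesTime.odd {φ : Flow ℝ S3} {R : S3 → S3} (H : ReversesTime φ R) {m : ℕ}
    (hm : Odd m) : ReversesTime φ (R^[m]) := by
  obtain ⟨k, rfl⟩ := hm
  have e : ∀ y, R^[2 * k + 1] y = (R^[2])^[k] (R y) := by
    intro y
    rw [show 2 * k + 1 = (2 * k).succ from rfl, Function.iterate_succ_apply, Function.iterate_mul]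
  intro x t
  rw [e, e, H, H.sq.iterate k]

/-- `R` maps orbits to orbits and preserves their direction. -/
def PreservesOrbits (φ : Flow ℝ S3) (R : S3 → S3) : Prop :=
  ∀ x, ∀ t > (0 : ℝ), ∃ s > (0 : ℝ), R (φ t x) = φ s (R x)

theorem ReversesOrbits.neg {φ : Flow ℝ S3} {R : S3 → S3} (H : ReversesOrbits φ R) (x : S3) (t : ℝ)
    (ht : 0 < t) : ∃ s > (0 : ℝ), R (φ (-t) x) = φ s (R x) := by
  obtain ⟨s, hs, h⟩ := H (φ (-t) x) t ht
  refine ⟨s, hs, ?_⟩
  rw [← Flow.map_add, add_neg_cancel, Flow.map_zero_apply] at h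
  rw [h, ← Flow.map_add, add_neg_cancel, Flow.map_zero_apply]

theorem ReversesOrbits.sq {φ : Flow ℝ S3} {R : S3 → S3} (H : ReversesOrbits φ R) :
    PreservesOrbits φ (R^[2]) := by
  intro x t ht
  obtain ⟨s, hs, h⟩ := H x t ht
  obtain ⟨r, hr, h'⟩ := H.neg (R x) s hs
  refine ⟨r, hr, ?_⟩
  change R (R (φ t x)) = φ r (R (R x))
  rw [h, h']

theorem PreservesOrbits.iterate {φ : Flow ℝ S3} {R : S3 → S3} (H : PreservesOrbits φ R) (k : ℕ) :
    PreservesOrbits φ (R^[k]) := by
  induction k with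
  | zero =>
    intro x t ht
    exact ⟨t, ht, rfl⟩
  | succ k ih =>
    intro x t ht
    obtain ⟨s, hs, h⟩ := H x t ht
    obtain ⟨r, hr, h'⟩ := ih (R x) s hs
    refine ⟨r, hr, ?_⟩
    rw [Function.iterate_succ_apply, Function.iterate_succ_apply, h, h']

theorem ReversesOrbits.odd {φ : Flow ℝ S3} {R : S3 → S3} (H : ReversesOrbits φ R) {m : ℕ}
    (hm : Odd m) : ReversesOrbits φ (R^[m]) := by
  obtain ⟨k, rfl⟩ := hm
  have e : ∀ y, R^[2 * k + 1] y = R ((R^[2])^[k] y) := by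
    intro y
    rw [show 2 * k + 1 = (2 * k).succ from rfl, Function.iterate_succ_apply',
      Function.iterate_mul]
  intro x t ht
  obtain ⟨s, hs, h⟩ := (H.sq.iterate k) x t ht
  obtain ⟨r, hr, h'⟩ := H ((R^[2])^[k] x) s hs
  refine ⟨r, hr, ?_⟩
  rw [e, e, h, h']

theorem invol_main (φ : Flow ℝ S3) {R : S3 → S3} {g : E4 ≃ₗᵢ[ℝ] E4} (H : ConjIso R g)
    (hg : g ^ 2 = 1) (htr : LinearMap.trace ℝ E4 (lin g) ≠ 0) :
    (ReversesOrbits φ R → (∃ x, ∃ t > (0 : ℝ), φ t x = x) ∧ ¬ MinimalFlow φ) ∧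
    (ReversesTime φ R → ∃ x, ∀ t, φ t x = x) := by
  obtain ⟨h, a, b, hR⟩ := H.rev hg htr
  refine ⟨fun hrev => ?_, fun hrev => ?_⟩
  · have hp := periodic_point φ hR hrev
    refine ⟨hp, fun hmin => ?_⟩
    obtain ⟨x, t, ht, hx⟩ := hp
    obtain ⟨A, hA1, hA2, hA3, hA4⟩ := orbit_ne_univ φ x t ht hx
    exact hA4 (hmin A hA1 hA2 hA3)
  · obtain ⟨ε, hε, hper⟩ := small_periods φ hR hrev
    exact fixed_of_small_periods φ ε hε hper

theorem ReversesTime.orbits {φ : Flow ℝ S3} {R : S3 → S3} (H : ReversesTime φ R) :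
    ReversesOrbits φ R := fun x t ht => ⟨t, ht, H x t⟩

theorem minimal_odd {φ : Flow ℝ S3} (hm : MinimalFlow φ) {R : S3 → S3} {g : E4 ≃ₗᵢ[ℝ] E4}
    (H : ConjIso R g) (hrev : ReversesTime φ R) {m : ℕ} (hodd : Odd m) :
    ((g ^ m) ^ 2 = 1 ∧ LinearMap.trace ℝ E4 (lin (g ^ m)) = 0) ∨
      ∀ x : S3, ((g ^ m) ^ 2) x.1 ≠ x.1 := by
  by_cases hx : ∃ x : S3, ((g ^ m) ^ 2) x.1 = x.1
  · left
    have h1 : (g ^ m) ^ 2 = 1 := eq_one_of_minimal hm ((H.pow m).pow 2) (hrev.odd hodd).sq hx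
    refine ⟨h1, ?_⟩
    by_contra htr
    exact ((invol_main φ (H.pow m) h1 htr).1 (hrev.odd hodd).orbits).2 hm
  · right
    push Not at hx
    exact hx

theorem prod_signs (l : Fin 4 → ℝ) (h : ∀ i, l i = 1 ∨ l i = -1) (hs : ∑ i, l i = 0) :
    ∏ i, l i = 1 := by
  rw [Fin.sum_univ_four] at hs
  rw [Fin.prod_univ_four]
  rcases h 0 with h0 | h0 <;> rcases h 1 with h1 | h1 <;> rcases h 2 with h2 | h2 <;>
    rcases h 3 with h3 | h3 <;> rw [h0, h1, h2, h3] at hs ⊢ <;>
    first | (exfalso; norm_num at hs; done) | norm_num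

theorem minimal_det_rev {φ : Flow ℝ S3} (hm : MinimalFlow φ) {R : S3 → S3} {g : E4 ≃ₗᵢ[ℝ] E4}
    (H : ConjIso R g) (hrev : ReversesTime φ R) : LinearMap.det (lin g) = 1 := by
  by_contra hd
  obtain ⟨x, hx⟩ := fixed_of_det g hd
  rcases minimal_odd hm H hrev (m := 1) odd_one with ⟨h1, h2⟩ | h
  · rw [pow_one] at h1 h2
    have hg' : ∀ x, g (g x) = x := by
      intro x
      have := congrArg (fun k : E4 ≃ₗᵢ[ℝ] E4 => k x) h1
      rw [pow_two] at this
      exact this
    obtain ⟨b, l, hl, _, ht, hdet⟩ := diag g hg'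
    rw [ht] at h2
    exact hd (by rw [hdet]; exact prod_signs l hl h2)
  · apply h x
    rw [pow_one, pow_two]
    change g (g x.1) = x.1
    rw [hx, hx]

theorem minimal_det_pres {φ : Flow ℝ S3} (hm : MinimalFlow φ) {R : S3 → S3} {g : E4 ≃ₗᵢ[ℝ] E4}
    (H : ConjIso R g) (hc : Preserves φ R) : LinearMap.det (lin g) = 1 := by
  by_contra hd
  have h1 := eq_one_of_minimal hm H hc (fixed_of_det g hd)
  apply hd
  rw [h1]
  have h2 : lin (1 : E4 ≃ₗᵢ[ℝ] E4) = LinearMap.id := rfl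
  rw [h2, LinearMap.det_id]

end H72R
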