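import Mathlib
import Pool.Agent.Lib.H72R.J

/-! # H72R, part K: minimal flows and isometries which map orbits to orbits -/

set_option autoImplicit false

noncomputable section

namespace H72R

theorem recur_iso (g : E4 ≃ₗᵢ[ℝ] E4) (δ : ℝ) (hδ : 0 < δ) :
    ∃ k : ℕ, 0 < k ∧ ∀ v : E4, ‖v‖ = 1 → ‖(g ^ k) v - v‖ < δ := by
  set f : ℕ → (E4 →L[ℝ] E4) :=
    fun n => ((g ^ n).toContinuousLinearEquiv : E4 →L[ℝ] E4) with hf
  have hb : ∀ n, f n ∈ Metric.closedBall (0 : E4 →L[ℝ] E4) 1 := by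
    intro n
    rw [mem_closedBall_zero_iff]
    refine ContinuousLinearMap.opNorm_le_bound _ zero_le_one (fun v => ?_)
    rw [one_mul]
    exact ((g ^ n).norm_map v).le
  obtain ⟨a, _, ψ, hψ, hlim⟩ := tendsto_subseq_of_bounded Metric.isBounded_closedBall hb
  have hc := hlim.cauchySeq
  rw [Metric.cauchySeq_iff] at hc
  obtain ⟨N, hN⟩ := hc δ hδ
  have h1 := hN (N + 1) (by omega) N le_rfl
  have h2 : ψ N < ψ (N + 1) := hψ (Nat.lt_succ_self N)
  refine ⟨ψ (N + 1) - ψ N, by omega, fun v hv => ?_⟩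
  have h3 : (g ^ ψ (N + 1)) v = (g ^ ψ N) ((g ^ (ψ (N + 1) - ψ N)) v) := by
    have h5 : g ^ ψ (N + 1) = g ^ ψ N * g ^ (ψ (N + 1) - ψ N) := by
      rw [← pow_add, Nat.add_sub_cancel' h2.le]
    rw [h5]
    rfl
  have h4 : ‖(g ^ (ψ (N + 1) - ψ N)) v - v‖ = ‖(f (ψ (N + 1)) - f (ψ N)) v‖ := by
    change _ = ‖(g ^ ψ (N + 1)) v - (g ^ ψ N) v‖
    rw [h3, ← map_sub, LinearIsometryEquiv.norm_map]
  rw [h4]
  calc ‖(f (ψ (N + 1)) - f (ψ N)) v‖ ≤ ‖f (ψ (N + 1)) - f (ψ N)‖ * ‖v‖ :=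
        ContinuousLinearMap.le_opNorm _ _
    _ < δ := by
      rw [hv, mul_one, ← dist_eq_norm]
      exact h1

theorem recur {S : S3 → S3} {g : E4 ≃ₗᵢ[ℝ] E4} (H : ConjIso S g) (ε : ℝ) (hε : 0 < ε) :
    ∃ k : ℕ, 0 < k ∧ ∀ y, dist (S^[k] y) y < ε := by
  obtain ⟨h, hh⟩ := H
  have hu := CompactSpace.uniformContinuous_of_continuous h.continuous
  rw [Metric.uniformContinuous_iff] at hu
  obtain ⟨δ, hδ, hd⟩ := hu ε hε
  obtain ⟨k, hk, hg⟩ := recur_iso g δ hδ
  refine ⟨k, hk, fun y => ?_⟩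
  have hp : ∀ m : ℕ, ∀ x : S3, (h.symm (S^[m] (h x))).1 = (g ^ m) x.1 := by
    intro m
    induction m with
    | zero =>
      intro x
      simp
    | succ m ih =>
      intro x
      rw [Function.iterate_succ_apply]
      have h1 := ih (h.symm (S (h x)))
      rw [Homeomorph.apply_symm_apply] at h1
      rw [h1, hh, pow_succ]
      rfl
  have h1 : dist (h.symm (S^[k] y)) (h.symm y) < δ := by
    have h2 := hp k (h.symm y)
    rw [Homeomorph.apply_symm_apply] at h2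
    rw [Subtype.dist_eq, h2, dist_eq_norm]
    exact hg _ (mem_sphere_zero_iff_norm.1 (h.symm y).2)
  have h3 := hd h1
  rwa [Homeomorph.apply_symm_apply, Homeomorph.apply_symm_apply] at h3

theorem no_period {φ : Flow ℝ S3} (hm : MinimalFlow φ) (x : S3) {s t : ℝ} (h : φ s x = φ t x) :
    s = t := by
  have key : ∀ a b : ℝ, a < b → φ a x ≠ φ b x := by
    intro a b hab heq
    have h1 : φ (b - a) x = x := by
      have h2 : b - a = -a + b := by ring
      rw [h2, Flow.map_add, ← heq, ← Flow.map_add, neg_add_cancel, Flow.map_zero_apply]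
    obtain ⟨A, hA1, hA2, hA3, hA4⟩ := orbit_ne_univ φ x (b - a) (by linarith) h1
    exact hA4 (hm A hA1 hA2 hA3)
  rcases lt_trichotomy s t with h1 | h1 | h1
  · exact absurd h (key s t h1)
  · exact h1
  · exact absurd h.symm (key t s h1)

theorem arc_closed (φ : Flow ℝ S3) (x : S3) (a b : ℝ) :
    IsClosed ((fun u => φ u x) '' Set.Icc a b) := by
  have h1 : Continuous fun u : ℝ => φ u x := φ.continuous continuous_id continuous_const
  exact (isCompact_Icc.image h1).isClosed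

theorem exists_sigma {φ : Flow ℝ S3} (hm : MinimalFlow φ) {S : S3 → S3} (hp : PreservesOrbits φ S)
    {x : S3} (hx : S x = x) : ∃ σ : ℝ → ℝ, (∀ t, 0 ≤ t → 0 ≤ σ t) ∧
      (∀ t, 0 ≤ t → S (φ t x) = φ (σ t) x) ∧ (∀ t t', 0 ≤ t → t < t' → σ t < σ t') ∧ σ 0 = 0 := by
  have h0 : ∀ t : ℝ, ∃ s : ℝ, 0 ≤ t → 0 ≤ s ∧ S (φ t x) = φ s x := by
    intro t
    by_cases ht : 0 ≤ t
    · rcases eq_or_lt_of_le ht with h | h
      · refine ⟨0, fun _ => ⟨le_rfl, ?_⟩⟩
        rw [← h, Flow.map_zero_apply, hx]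
      · obtain ⟨s, hs, h1⟩ := hp x t h
        exact ⟨s, fun _ => ⟨hs.le, by rw [h1, hx]⟩⟩
    · exact ⟨0, fun h => absurd h ht⟩
  choose σ hσ using h0
  refine ⟨σ, fun t ht => (hσ t ht).1, fun t ht => (hσ t ht).2, fun t t' ht htt => ?_, ?_⟩
  · obtain ⟨s, hs, h1⟩ := hp (φ t x) (t' - t) (by linarith)
    rw [← Flow.map_add, sub_add_cancel, (hσ t' (by linarith)).2, (hσ t ht).2, ← Flow.map_add] at h1
    have := no_period hm x h1
    linarith
  · have h1 := (hσ 0 le_rfl).2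
    rw [Flow.map_zero_apply, hx] at h1
    have h2 : φ (0 : ℝ) x = φ (σ 0) x := by rw [Flow.map_zero_apply, ← h1]
    exact (no_period hm x h2).symm

theorem le_sigma {φ : Flow ℝ S3} (hm : MinimalFlow φ) {S : S3 → S3} {g : E4 ≃ₗᵢ[ℝ] E4}
    (H : ConjIso S g) (hp : PreservesOrbits φ S) {x : S3} (hx : S x = x) {t s : ℝ} (ht : 0 ≤ t)
    (hs : 0 ≤ s) (h : S (φ t x) = φ s x) : t ≤ s := by
  by_contra hlt
  push Not at hlt
  obtain ⟨σ, h1, h2, h3, h4⟩ := exists_sigma hm hp hx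
  have hst : σ t = s := no_period hm x (by rw [← h2 t ht, h])
  set A := (fun u => φ u x) '' Set.Icc 0 s with hA
  have hmaps : Set.MapsTo S A A := by
    rintro _ ⟨u, hu, rfl⟩
    refine ⟨σ u, ⟨h1 u hu.1, ?_⟩, (h2 u hu.1).symm⟩
    rw [← hst]
    exact (h3 u t hu.1 (lt_of_le_of_lt hu.2 hlt)).le
  have hmem : φ t x ∈ closure A := by
    rw [Metric.mem_closure_iff]
    intro ε hε
    obtain ⟨k, hk, hd⟩ := recur H ε hε
    refine ⟨S^[k] (φ t x), ?_, by rw [dist_comm]; exact hd _⟩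
    obtain ⟨j, rfl⟩ := Nat.exists_eq_succ_of_ne_zero hk.ne'
    rw [Function.iterate_succ_apply, h]
    exact (hmaps.iterate j) ⟨s, ⟨hs, le_rfl⟩, rfl⟩
  rw [(arc_closed φ x 0 s).closure_eq] at hmem
  obtain ⟨u, hu, hut⟩ := hmem
  have := no_period hm x hut
  linarith [hu.2]

theorem sigma_le {φ : Flow ℝ S3} (hm : MinimalFlow φ) {S : S3 → S3} {g : E4 ≃ₗᵢ[ℝ] E4}
    (H : ConjIso S g) (hp : PreservesOrbits φ S) {x : S3} (hx : S x = x) {t s : ℝ} (ht : 0 ≤ t)
    (hs : 0 ≤ s) (h : S (φ t x) = φ s x) : s ≤ t := by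
  by_contra hlt
  push Not at hlt
  have hfix : ∀ k : ℕ, S^[k] x = x := fun k => Function.iterate_fixed hx k
  have hmem : φ s x ∈ closure ((fun u => φ u x) '' Set.Icc 0 t) := by
    rw [Metric.mem_closure_iff]
    intro ε hε
    obtain ⟨k, hk, hd⟩ := recur H ε hε
    obtain ⟨σ, h1, h2, h3, h4⟩ := exists_sigma hm (hp.iterate k) (hfix k)
    have hM : s ≤ σ t := by
      obtain ⟨j, rfl⟩ := Nat.exists_eq_succ_of_ne_zero hk.ne'
      have h5 := h2 t ht
      rw [Function.iterate_succ_apply, h] at h5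
      exact le_sigma hm (H.pow j) (hp.iterate j) (hfix j) hs (h1 t ht) h5
    have hmono : ∀ u, 0 ≤ u → u ≤ t → σ u ≤ σ t := by
      intro u hu hut
      rcases eq_or_lt_of_le hut with h6 | h6
      · rw [h6]
      · exact (h3 u t hu h6).le
    set p : Set.Icc (0 : ℝ) (σ t) → S3 := fun v => φ v.1 x with hpdef
    have hpc : Continuous p := φ.continuous continuous_subtype_val continuous_const
    have hpi : Function.Injective p := fun v w hvw => Subtype.ext (no_period hm x hvw)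
    have hemb : Topology.IsClosedEmbedding p := hpc.isClosedEmbedding hpi
    set r : Set.Icc (0 : ℝ) t → Set.Icc (0 : ℝ) (σ t) :=
      fun u => ⟨σ u.1, h1 u.1 u.2.1, hmono u.1 u.2.1 u.2.2⟩ with hr
    have hrc : Continuous r := by
      rw [hemb.isEmbedding.continuous_iff]
      have h7 : p ∘ r = fun u : Set.Icc (0 : ℝ) t => S^[k] (φ u.1 x) := by
        funext u
        exact (h2 u.1 u.2.1).symm
      rw [h7]
      exact (H.cont.iterate k).comp (φ.continuous continuous_subtype_val continuous_const)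
    have hrange : s ∈ Set.range fun u => (r u).1 := by
      have hpre : PreconnectedSpace (Set.Icc (0 : ℝ) t) :=
        isPreconnected_iff_preconnectedSpace.1 isPreconnected_Icc
      refine mem_range_of_exists_le_of_exists_ge (continuous_subtype_val.comp hrc)
        ⟨⟨0, le_rfl, ht⟩, ?_⟩ ⟨⟨t, ht, le_rfl⟩, hM⟩
      change σ 0 ≤ s
      rw [h4]
      exact hs
    obtain ⟨u, hu⟩ := hrange
    refine ⟨φ u.1 x, ⟨u.1, u.2, rfl⟩, ?_⟩
    have h8 : S^[k] (φ u.1 x) = φ s x := by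
      rw [h2 u.1 u.2.1]
      have h9 : σ u.1 = s := hu
      rw [h9]
    rw [← h8]
    exact hd _
  rw [(arc_closed φ x 0 t).closure_eq] at hmem
  obtain ⟨u, hu, hut⟩ := hmem
  have := no_period hm x hut
  linarith [hu.2]

theorem orbit_fixed {φ : Flow ℝ S3} (hm : MinimalFlow φ) {S : S3 → S3} {g : E4 ≃ₗᵢ[ℝ] E4}
    (H : ConjIso S g) (hp : PreservesOrbits φ S) {x : S3} (hx : S x = x) {t : ℝ} (ht : 0 ≤ t) :
    S (φ t x) = φ t x := by
  obtain ⟨σ, h1, h2, _, _⟩ := exists_sigma hm hp hx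
  have h3 := le_sigma hm H hp hx ht (h1 t ht) (h2 t ht)
  have h4 := sigma_le hm H hp hx ht (h1 t ht) (h2 t ht)
  rw [h2 t ht, le_antisymm h4 h3]

end H72R
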