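import Mathlib
import Pool.Agent.Lib.H72R.K

/-! # H72R, part M: the theorem for orbit equivalences -/

set_option autoImplicit false

noncomputable section

namespace H72R

theorem minimal_reverse {φ : Flow ℝ S3} (hm : MinimalFlow φ) : MinimalFlow φ.reverse := by
  intro s h1 h2 h3
  refine hm s h1 h2 ?_
  intro t
  have h4 := h3 (-t)
  intro x hx
  have h5 := h4 hx
  rw [show φ.reverse.toFun (-t) x = φ (- -t) x from rfl, neg_neg] at h5
  exact h5

theorem PreservesOrbits.reverse {φ : Flow ℝ S3} {S : S3 → S3} (H : PreservesOrbits φ S) :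
    PreservesOrbits φ.reverse S := by
  intro x t ht
  obtain ⟨s, hs, h⟩ := H (φ (-t) x) t ht
  refine ⟨s, hs, ?_⟩
  rw [← Flow.map_add, add_neg_cancel, Flow.map_zero_apply] at h
  change S (φ (-t) x) = φ (-s) (S x)
  rw [h, ← Flow.map_add, neg_add_cancel, Flow.map_zero_apply]

theorem orbit_fixed' {φ : Flow ℝ S3} (hm : MinimalFlow φ) {S : S3 → S3} {g : E4 ≃ₗᵢ[ℝ] E4}
    (H : ConjIso S g) (hp : PreservesOrbits φ S) {x : S3} (hx : S x = x) (t : ℝ) :
    S (φ t x) = φ t x := by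
  rcases le_total 0 t with ht | ht
  · exact orbit_fixed hm H hp hx ht
  · have h1 := orbit_fixed (minimal_reverse hm) H hp.reverse hx (t := -t) (by linarith)
    rw [Flow.reverse_apply, neg_neg] at h1
    exact h1

/-- In a minimal flow an orbit preserving isometry with a fixed point is trivial. -/
theorem eq_one_of_minimal' {φ : Flow ℝ S3} (hm : MinimalFlow φ) {R : S3 → S3} {g : E4 ≃ₗᵢ[ℝ] E4}
    (H : ConjIso R g) (hc : PreservesOrbits φ R) (hx : ∃ x : S3, g x.1 = x.1) : g = 1 := by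
  have H' := H
  have hcont := H.cont
  obtain ⟨h, hh⟩ := H
  have h1 : {y : S3 | R y = y} = Set.univ := by
    refine hm _ (isClosed_eq hcont continuous_id) ?_ ?_
    · obtain ⟨x, hx⟩ := hx
      refine ⟨h x, ?_⟩
      have h2 : h.symm (R (h x)) = x := Subtype.ext (by rw [hh, hx])
      have h3 : R (h x) = h x := by
        have h4 := congrArg h h2
        rwa [Homeomorph.apply_symm_apply] at h4
      exact h3
    · intro t y hy
      exact orbit_fixed' hm H' hc hy t
  apply eq_one_of_fix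
  intro x
  rw [← hh]
  have h2 : h x ∈ {y : S3 | R y = y} := by
    rw [h1]
    trivial
  have h3 : R (h x) = h x := h2
  rw [h3, Homeomorph.symm_apply_apply]

theorem minimal_odd' {φ : Flow ℝ S3} (hm : MinimalFlow φ) {R : S3 → S3} {g : E4 ≃ₗᵢ[ℝ] E4}
    (H : ConjIso R g) (hrev : ReversesOrbits φ R) {m : ℕ} (hodd : Odd m) :
    ((g ^ m) ^ 2 = 1 ∧ LinearMap.trace ℝ E4 (lin (g ^ m)) = 0) ∨
      ∀ x : S3, ((g ^ m) ^ 2) x.1 ≠ x.1 := by
  by_cases hx : ∃ x : S3, ((g ^ m) ^ 2) x.1 = x.1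
  · left
    have h1 : (g ^ m) ^ 2 = 1 := eq_one_of_minimal' hm ((H.pow m).pow 2) (hrev.odd hodd).sq hx
    refine ⟨h1, ?_⟩
    by_contra htr
    exact ((invol_main φ (H.pow m) h1 htr).1 (hrev.odd hodd)).2 hm
  · right
    push Not at hx
    exact hx

theorem minimal_det_rev' {φ : Flow ℝ S3} (hm : MinimalFlow φ) {R : S3 → S3} {g : E4 ≃ₗᵢ[ℝ] E4}
    (H : ConjIso R g) (hrev : ReversesOrbits φ R) : LinearMap.det (lin g) = 1 := by
  by_contra hd
  obtain ⟨x, hx⟩ := fixed_of_det g hd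
  rcases minimal_odd' hm H hrev (m := 1) odd_one with ⟨h1, h2⟩ | h
  · rw [pow_one] at h1 h2
    have hg' : ∀ x, g (g x) = x := by
      intro x
      have := congrArg (fun k : E4 ≃ₗᵢ[ℝ] E4 => k x) h1
      rw [pow_two] at this
      exact this
    obtain ⟨b, l, hl, _, ht, hdet⟩ := diag g hg'
    rw [ht] at h2
    exact hd (by rw [hdet]; exact prod_signs l hl h2)
  · apply h x
    rw [pow_one, pow_two]
    change g (g x.1) = x.1
    rw [hx, hx]

theorem minimal_det_pres' {φ : Flow ℝ S3} (hm : MinimalFlow φ) {R : S3 → S3} {g : E4 ≃ₗᵢ[ℝ] E4}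
    (H : ConjIso R g) (hc : PreservesOrbits φ R) : LinearMap.det (lin g) = 1 := by
  by_contra hd
  have h1 := eq_one_of_minimal' hm H hc (fixed_of_det g hd)
  apply hd
  rw [h1]
  have h2 : lin (1 : E4 ≃ₗᵢ[ℝ] E4) = LinearMap.id := rfl
  rw [h2, LinearMap.det_id]

end H72R
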