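import Mathlib
import Pool.Agent.Lib.H72R.M

/-! # H72R, part N: the theorem in matrix form -/

set_option autoImplicit false

noncomputable section

namespace H72R

/-- `R : S3 → S3` is conjugate, by a homeomorphism `h` of the sphere with inverse `k`, to the linear
map with matrix `A`: `k (R (h x)) = A x`. -/
def ConjMat (R : S3 → S3) (A : Matrix (Fin 4) (Fin 4) ℝ) : Prop :=
  ∃ h k : S3 → S3, Continuous h ∧ Continuous k ∧ (∀ x, k (h x) = x) ∧ (∀ x, h (k x) = x) ∧
    ∀ x i, (k (R (h x))).1 i = ∑ j, A i j * x.1 j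

/-- Some point is a rest point or a periodic point. -/
def HasPeriodicPoint (φ : Flow ℝ S3) : Prop := ∃ x, ∃ t > (0 : ℝ), φ t x = x

/-- Some point is a rest point. -/
def HasRestPoint (φ : Flow ℝ S3) : Prop := ∃ x, ∀ t, φ t x = x

theorem toLin_apply (A : Matrix (Fin 4) (Fin 4) ℝ) (x : E4) (i : Fin 4) :
    (Matrix.toEuclideanLin A x) i = ∑ j, A i j * x j := by
  rfl

/-- The isometry of an orthogonal matrix. -/
theorem exists_iso (A : Matrix (Fin 4) (Fin 4) ℝ) (hA : A.transpose * A = 1) :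
    ∃ g : E4 ≃ₗᵢ[ℝ] E4, lin g = Matrix.toEuclideanLin A := by
  have hn : ∀ x : E4, ‖Matrix.toEuclideanLin A x‖ = ‖x‖ := by
    intro x
    have h1 : inner ℝ (Matrix.toEuclideanLin A x) (Matrix.toEuclideanLin A x)
        = inner ℝ x x := by
      have h2 : (LinearMap.adjoint (Matrix.toEuclideanLin A)) (Matrix.toEuclideanLin A x)
          = x := by
        rw [← Matrix.toEuclideanLin_conjTranspose_eq_adjoint, Matrix.conjTranspose_eq_transpose_of_trivial]
        ext i
        rw [toLin_apply]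
        simp only [toLin_apply]
        have h3 : ∀ k, (A.transpose * A) i k = if i = k then 1 else 0 := by
          intro k
          rw [hA, Matrix.one_apply]
        calc ∑ j, A.transpose i j * ∑ k, A j k * x k
            = ∑ j, ∑ k, A.transpose i j * (A j k * x k) := by simp only [Finset.mul_sum]
          _ = ∑ k, ∑ j, A.transpose i j * (A j k * x k) := Finset.sum_comm
          _ = ∑ k, (A.transpose * A) i k * x k := by
              refine Finset.sum_congr rfl fun k _ => ?_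
              rw [Matrix.mul_apply, Finset.sum_mul]
              exact Finset.sum_congr rfl fun j _ => by ring
          _ = x i := by
              simp only [h3]
              simp
      rw [← LinearMap.adjoint_inner_left, h2]
    rw [real_inner_self_eq_norm_sq, real_inner_self_eq_norm_sq] at h1
    exact (sq_eq_sq₀ (norm_nonneg _) (norm_nonneg _)).1 h1
  set li : E4 →ₗᵢ[ℝ] E4 := ⟨Matrix.toEuclideanLin A, hn⟩ with hli
  refine ⟨li.toLinearIsometryEquiv rfl, ?_⟩
  ext1 x
  change li.toLinearIsometryEquiv rfl x = Matrix.toEuclideanLin A x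
  rw [LinearIsometry.toLinearIsometryEquiv_apply]
  rfl

theorem toFix {g : E4 ≃ₗᵢ[ℝ] E4} {A : Matrix (Fin 4) (Fin 4) ℝ}
    (hg : ∀ x : E4, (g x).ofLp = A.mulVec x.ofLp) (h : ∀ x : S3, g x.1 ≠ x.1)
    (v : Fin 4 → ℝ) (hv : v ≠ 0) : A.mulVec v ≠ v := by
  intro hAv
  set w : E4 := WithLp.toLp 2 v with hw
  have hwv : w.ofLp = v := rfl
  have hw0 : w ≠ 0 := by
    intro h0
    apply hv
    rw [← hwv, h0]
    rfl
  have hgw : g w = w := by
    have h1 : (g w).ofLp = w.ofLp := by
      rw [hg, hwv, hAv]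
    ext i
    exact congrFun h1 i
  have hmem : (‖w‖⁻¹ : ℝ) • w ∈ Metric.sphere (0 : E4) 1 := by
    rw [mem_sphere_zero_iff_norm, norm_smul, norm_inv, norm_norm]
    exact inv_mul_cancel₀ (norm_ne_zero_iff.2 hw0)
  apply h ⟨_, hmem⟩
  change g ((‖w‖⁻¹ : ℝ) • w) = (‖w‖⁻¹ : ℝ) • w
  rw [LinearIsometryEquiv.map_smul, hgw]

theorem mat_one {A : Matrix (Fin 4) (Fin 4) ℝ} (h : ∀ v, A.mulVec v = v) : A = 1 := by
  apply Matrix.toLin'.injective
  refine LinearMap.ext fun v => ?_
  rw [Matrix.toLin'_apply, h, Matrix.toLin'_apply, Matrix.one_mulVec]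

theorem main (φ : Flow ℝ S3) (R : S3 → S3) (m : ℕ) (hm : Odd m) (A : Matrix (Fin 4) (Fin 4) ℝ)
    (hA : A.transpose * A = 1) (hR : ConjMat (R^[m]) A) :
    (A * A = 1 → A.trace ≠ 0 →
      (ReversesOrbits φ R → HasPeriodicPoint φ ∧ ¬ MinimalFlow φ) ∧
      (ReversesTime φ R → HasRestPoint φ)) ∧
    (MinimalFlow φ →
      (PreservesOrbits φ R → A.det = 1 ∧ (A = 1 ∨ ∀ v, v ≠ 0 → A.mulVec v ≠ v)) ∧
      (ReversesOrbits φ R → A.det = 1 ∧
        ((A * A = 1 ∧ A.trace = 0) ∨ ∀ v, v ≠ 0 → (A * A).mulVec v ≠ v))) := by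
  obtain ⟨g, hg⟩ := exists_iso A hA
  have hgx : ∀ x : E4, (g x).ofLp = A.mulVec x.ofLp := by
    intro x
    have h1 := congrArg (fun L : E4 →ₗ[ℝ] E4 => L x) hg
    have h2 : g x = Matrix.toEuclideanLin A x := h1
    rw [h2]
    rfl
  have hg2 : ∀ x : E4, ((g ^ 2) x).ofLp = (A * A).mulVec x.ofLp := by
    intro x
    rw [pow_two]
    change (g (g x)).ofLp = _
    rw [hgx, hgx, Matrix.mulVec_mulVec]
  have htr : LinearMap.trace ℝ E4 (lin g) = A.trace := by
    rw [hg, Matrix.toEuclideanLin_eq_toLin_orthonormal, Matrix.trace_toLin_eq]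
  have hdet : LinearMap.det (lin g) = A.det := by
    rw [hg, Matrix.toEuclideanLin_eq_toLin_orthonormal, LinearMap.det_toLin]
  have hR' : ConjIso (R^[m]) g := by
    obtain ⟨h, k, hh, hk, h1, h2, h3⟩ := hR
    refine ⟨⟨⟨h, k, h1, h2⟩, hh, hk⟩, fun x => ?_⟩
    ext i
    rw [hgx]
    exact h3 x i
  have hone : g ^ 2 = 1 → A * A = 1 := by
    intro h
    apply mat_one
    intro v
    have h1 := hg2 (WithLp.toLp 2 v)
    rw [h] at h1
    exact h1.symm
  have hone' : A * A = 1 → g ^ 2 = 1 := by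
    intro h
    ext x i
    rw [hg2, h, Matrix.one_mulVec]
    rfl
  refine ⟨fun hsq ht => ⟨fun h => (invol_main φ hR' (hone' hsq) (by rwa [htr])).1 (h.odd hm),
    fun h => (invol_main φ hR' (hone' hsq) (by rwa [htr])).2 (h.odd hm)⟩,
    fun hmin => ⟨fun h => ⟨?_, ?_⟩, fun h => ⟨?_, ?_⟩⟩⟩
  · rw [← hdet]
    exact minimal_det_pres' hmin hR' (h.iterate m)
  · by_cases hx : ∃ x : S3, g x.1 = x.1
    · left
      have h1 := eq_one_of_minimal' hmin hR' (h.iterate m) hx
      apply mat_one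
      intro v
      have h2 := hgx (WithLp.toLp 2 v)
      rw [h1] at h2
      exact h2.symm
    · right
      push Not at hx
      exact toFix hgx hx
  · rw [← hdet]
    exact minimal_det_rev' hmin hR' (h.odd hm)
  · have h1 := minimal_odd' hmin hR' (h.odd hm) odd_one
    rw [pow_one] at h1
    rcases h1 with ⟨h2, h3⟩ | h2
    · left
      exact ⟨hone h2, by rw [← htr, h3]⟩
    · right
      exact toFix hg2 h2

end H72R
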